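import Pool.Agent.Helper40.TDF.Defs

/-! Maps preserving the flag `V*_0 + ⋯ + V*_i` and acting tridiagonally on the `V_i`: basics. -/

set_option autoImplicit false

namespace Pool.Agent.Helper40.TDF

open Polynomial Module Pool.Agent.Helper9.TD Pool.Agent.R841.TD

variable {K : Type*} [Field K] {V : Type*} [AddCommGroup V] [Module K V]

/-- the two conditions on `X`, in terms of the projections onto the eigenspaces -/
structure SF (d : ℕ) (P Q : ℕ → Module.End K V) (X : Module.End K V) : Prop where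
  low : ∀ i ≤ d, ∀ k ≤ d, i < k → ∀ v, Q k (X (Q i v)) = 0
  tri : ∀ i ≤ d, ∀ k ≤ d, (i + 1 < k ∨ k + 1 < i) → ∀ v, P k (X (P i v)) = 0

variable {A B : Module.End K V} {d : ℕ} {a b : ℕ → K} {P Q : ℕ → Module.End K V}
  {X Y : Module.End K V}

theorem SF.add (hX : SF d P Q X) (hY : SF d P Q Y) : SF d P Q (X + Y) where
  low := fun i hi k hk hik v => by
    rw [LinearMap.add_apply, map_add, hX.low i hi k hk hik, hY.low i hi k hk hik, add_zero]
  tri := fun i hi k hk hik v => by
    rw [LinearMap.add_apply, map_add, hX.tri i hi k hk hik, hY.tri i hi k hk hik, add_zero]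

theorem SF.sub (hX : SF d P Q X) (hY : SF d P Q Y) : SF d P Q (X - Y) where
  low := fun i hi k hk hik v => by
    rw [LinearMap.sub_apply, map_sub, hX.low i hi k hk hik, hY.low i hi k hk hik, sub_zero]
  tri := fun i hi k hk hik v => by
    rw [LinearMap.sub_apply, map_sub, hX.tri i hi k hk hik, hY.tri i hi k hk hik, sub_zero]

theorem SF.of_SL (hX : SL d P Q X) : SF d P Q X where
  low := fun i hi k hk hik v => hX.low i hi k hk hik.le v
  tri := hX.tri

/-- `A ∘ Y` for a lowering map `Y` -/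
theorem SF.of_SL_left (h : Sys A B d a P d b Q) (hX : SL d P Q X) : SF d P Q (A ∘ₗ X) where
  low := fun i hi k hk hik v => by
    rw [LinearMap.comp_apply]
    rcases i with _ | i
    · have h0 : X (Q 0 v) = 0 := h.iB.eq_zero _ fun l hl => hX.low 0 (by omega) l hl (by omega) v
      rw [h0, map_zero, map_zero]
    · exact up_lemma h.iB h.triB i _ (fun l hl hil => hX.low (i + 1) hi l hl hil v) k hk hik
  tri := fun i hi k hk hik v => by
    rw [LinearMap.comp_apply, h.iA.comm k hk, hX.tri i hi k hk hik, smul_zero]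

/-- `Y ∘ A` for a lowering map `Y` -/
theorem SF.of_SL_right (h : Sys A B d a P d b Q) (hX : SL d P Q X) : SF d P Q (X ∘ₗ A) where
  low := fun i hi k hk hik v => by
    rw [LinearMap.comp_apply]
    refine hX.F h.iB (i + 1) _ (fun l hl hil => ?_) k hk hik
    exact h.triB i hi l hl (Or.inl hil) v
  tri := fun i hi k hk hik v => by
    rw [LinearMap.comp_apply, h.iA.eig i hi, map_smul, map_smul, hX.tri i hi k hk hik, smul_zero]

/-- the condition on the spaces `U_i` -/
def UF (d : ℕ) (P Q : ℕ → Module.End K V) (X : Module.End K V) : Prop :=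
  ∀ i ≤ d, ∀ v ∈ NN d P d Q i i, X v ∈ NN d P d Q i (i - 1)

theorem Sys.UF_F (h : Sys A B d a P d b Q) (h1 : UF d P Q X) (i : ℕ) : i ≤ d → ∀ v : V,
    (∀ k ≤ d, i < k → Q k v = 0) → ∀ k ≤ d, i < k → Q k (X v) = 0 := by
  induction i with
  | zero =>
    intro hi v hv
    exact (mem_NN.mp (h1 0 hi v (mem_NN.mpr ⟨hv, fun k _ hk => by omega⟩))).1
  | succ i ih =>
    intro hi v hv k hk hik
    obtain ⟨u, w, huw, hu, hw⟩ := Sys.split h i v
    have hw' : w ∈ NN d P d Q (i + 1) (i + 1) := by
      refine mem_NN.mpr ⟨fun l hl hil => ?_, hw⟩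
      have : w = v - u := by rw [huw]; abel
      rw [this, map_sub, hv l hl hil, hu l hl (by omega), sub_zero]
    rw [huw, map_add, map_add, ih (by omega) u hu k hk (by omega),
      (mem_NN.mp (h1 (i + 1) hi w hw')).1 k hk hik, add_zero]

theorem Sys.UF_G (h : Sys A B d a P d b Q) (h1 : UF d P Q X) (n : ℕ) : ∀ i, i + n = d + 1 →
    ∀ v : V, (∀ k ≤ d, k < i → P k v = 0) → ∀ k ≤ d, k + 1 < i → P k (X v) = 0 := by
  induction n with
  | zero =>
    intro i hi v hv k hk hki
    have : v = 0 := h.iA.eq_zero v fun k hk => hv k hk (by omega)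
    rw [this, map_zero, map_zero]
  | succ n ih =>
    intro i hi v hv k hk hki
    obtain ⟨u, w, huw, hu, hw⟩ := Sys.split h i v
    have hu' : u ∈ NN d P d Q i i := by
      refine mem_NN.mpr ⟨hu, fun l hl hil => ?_⟩
      have : u = v - w := by rw [huw]; abel
      rw [this, map_sub, hv l hl hil, hw l hl (by omega), sub_zero]
    rw [huw, map_add, map_add, (mem_NN.mp (h1 i (by omega) u hu')).2 k hk (by omega),
      ih (i + 1) (by omega) w hw k hk (by omega), add_zero]

theorem Sys.SF_of_UF (h : Sys A B d a P d b Q) (h1 : UF d P Q X)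
    (h2 : UF d (fun i => P (d - i)) Q X) : SF d P Q X where
  low := fun i hi k hk hik v => by
    refine Sys.UF_F h h1 i hi (Q i v) (fun l hl hil => ?_) k hk hik
    rw [h.iB.orth l hl i hi, if_neg (by omega)]
  tri := fun i hi k hk hik v => by
    rcases hik with hik | hik
    · have h3 := Sys.UF_G h.revA h2 (i + 1) (d - i) (by omega) (P i v) (fun l hl hli => by
        show P (d - l) (P i v) = 0
        rw [h.iA.orth (d - l) (by omega) i hi, if_neg (by omega)]) (d - k) (by omega) (by omega)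
      have h4 : P (d - (d - k)) (X (P i v)) = 0 := h3
      rwa [Nat.sub_sub_self hk] at h4
    · refine Sys.UF_G h h1 (d + 1 - i) i (by omega) (P i v) (fun l hl hli => ?_) k hk hik
      rw [h.iA.orth l hl i hi, if_neg (by omega)]

/-- a condition on the strings sufficient for `UF` -/
theorem Sys.UF_of_strings (h : Sys A B d a P d b Q)
    (hX : ∀ j s, 2 * j + s ≤ d → ∀ q ∈ LW d P Q j,
      X (aeval A (str a j s) q) ∈ NN d P d Q (j + s) (j + s - 1)) : UF d P Q X := by
  intro i hi v hv
  obtain ⟨q, hq, hqe⟩ := Sys.gen h i hi v hv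
  rw [hqe, map_sum]
  refine Submodule.sum_mem _ fun j hj => ?_
  rw [Finset.mem_filter, Finset.mem_range] at hj
  have h1 := hX j (i - j) (by omega) (q j) (hq j)
  rwa [show j + (i - j) = i by omega] at h1

/-- `τ_{j,s}` maps `NN i j` to `NN (i+s) (j+s)` -/
theorem Sys.aeval_mem' (h : Sys A B d a P d b Q) (i j s : ℕ) (v : V) (hv : v ∈ NN d P d Q i j) :
    aeval A (str a j s) v ∈ NN d P d Q (i + s) (j + s) := by
  induction s with
  | zero => rw [str_zero]; simpa using hv
  | succ s ih =>
    rw [str_succ, mul_comm, map_mul, Module.End.mul_apply, ← add_assoc, ← add_assoc]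
    have := h.NN_A (i + s) (j + s) _ ih
    simpa [map_sub, aeval_X, aeval_C, LinearMap.sub_apply] using this

theorem NN_mono {i i' j j' : ℕ} (hi : i ≤ i') (hj : j' ≤ j) {v : V} (hv : v ∈ NN d P d Q i j) :
    v ∈ NN d P d Q i' j' :=
  mem_NN.mpr ⟨fun k hk hik => (mem_NN.mp hv).1 k hk (by omega),
    fun k hk hik => (mem_NN.mp hv).2 k hk (by omega)⟩

/-- `A` maps `NN i j` to `NN (i+1) j` -/
theorem Sys.A_mem (h : Sys A B d a P d b Q) (i j : ℕ) (v : V) (hv : v ∈ NN d P d Q i j) :
    A v ∈ NN d P d Q (i + 1) j := by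
  have h1 := NN_mono le_rfl (Nat.le_succ j) (h.NN_A i j v hv)
  have h2 : A v = (A v - a j • v) + a j • v := by abel
  rw [h2]
  exact Submodule.add_mem _ h1 (Submodule.smul_mem _ _ (NN_mono (Nat.le_succ i) le_rfl hv))

theorem LW_NN {j : ℕ} {v : V} (hv : v ∈ LW d P Q j) : v ∈ NN d P d Q j j :=
  (Submodule.mem_inf.mp hv).1

/-- `τ_{j,d-2j+1}` kills `L_j` -/
theorem Sys.kill (h : Sys A B d a P d b Q) (j s : ℕ) (hs : d < 2 * j + s) (q : V)
    (hq : q ∈ LW d P Q j) : aeval A (str a j s) q = 0 := by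
  refine h.iA.eq_zero _ fun k hk => ?_
  rw [P_aeval h.iA k hk]
  by_cases h1 : k < j
  · rw [(mem_LW.mp hq).2.1 k hk h1, smul_zero]
  · by_cases h2 : d - j < k
    · rw [LW_P hq k hk h2, smul_zero]
    · rw [str_eval, Finset.prod_eq_zero (i := k - j) (Finset.mem_range.mpr (by omega)), zero_smul]
      rw [show j + (k - j) = k by omega, sub_self]

/-- `A τ_{j,s} = τ_{j,s+1} + a_{j+s} τ_{j,s}` -/
theorem A_str (j s : ℕ) (v : V) : A (aeval A (str a j s) v) =
    aeval A (str a j (s + 1)) v + a (j + s) • aeval A (str a j s) v := by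
  rw [str_succ, mul_comm, map_mul, Module.End.mul_apply, map_sub, aeval_X, aeval_C,
    LinearMap.sub_apply, Module.algebraMap_end_apply, sub_add_cancel]

end Pool.Agent.Helper40.TDF
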