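import Pool.Agent.Helper40.TDF.Basic

/-! Coordinates with respect to the string decomposition, and isotypic projections. -/

set_option autoImplicit false

namespace Pool.Agent.Helper40.TDF

open Polynomial Module Pool.Agent.Helper9.TD Pool.Agent.R841.TD

variable {K : Type*} [Field K] {V : Type*} [AddCommGroup V] [Module K V]

variable {A B : Module.End K V} {d : ℕ} {a b : ℕ → K} {P Q : ℕ → Module.End K V}
  {X Y : Module.End K V}

/-- the coordinate `q_{j,s}` -/
noncomputable def co (h : Sys A B d a P d b Q) (j s : ℕ) : V →ₗ[K] LW d P Q j :=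
  (Sys.exists_coord h j s).choose

theorem co_str (h : Sys A B d a P d b Q) (j s : ℕ) (hjs : 2 * j + s ≤ d) (j' s' : ℕ) (q : V)
    (hq : q ∈ LW d P Q j') : (co h j s (aeval A (str a j' s') q) : V) =
      if j' = j ∧ s' = s then q else 0 := by
  by_cases hs' : 2 * j' + s' ≤ d
  · exact (Sys.exists_coord h j s).choose_spec j' s' hs' q hq
  · rw [Sys.kill h j' s' (by omega) q hq, map_zero, if_neg (by omega)]
    rfl

theorem exists_pr (h : Sys A B d a P d b Q) (l : ℕ) : ∃ p : Module.End K V,
    ∀ l' t, ∀ q ∈ LW d P Q l', p (aeval A (str a l' t) q) =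
      if l' = l then aeval A (str a l' t) q else 0 := by
  obtain ⟨p, hp⟩ := Sys.exists_map h (W := V) (fun l' t =>
    if l' = l then aeval A (str a l' t) ∘ₗ (LW d P Q l').subtype else 0)
  refine ⟨p, fun l' t q hq => ?_⟩
  by_cases ht : 2 * l' + t ≤ d
  · have h1 := hp l' t ht ⟨q, hq⟩
    simp only at h1
    rw [h1]
    split_ifs <;> rfl
  · rw [Sys.kill h l' t (by omega) q hq, map_zero, ite_self]

/-- the projection onto `⊕_t τ_{l,t} L_l` -/
noncomputable def pr (h : Sys A B d a P d b Q) (l : ℕ) : Module.End K V :=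
  (exists_pr h l).choose

theorem pr_str (h : Sys A B d a P d b Q) (l l' t : ℕ) (q : V) (hq : q ∈ LW d P Q l') :
    pr h l (aeval A (str a l' t) q) = if l' = l then aeval A (str a l' t) q else 0 :=
  (exists_pr h l).choose_spec l' t q hq

theorem pr_A (h : Sys A B d a P d b Q) (l : ℕ) (v : V) : pr h l (A v) = A (pr h l v) := by
  have h1 : pr h l ∘ₗ A = A ∘ₗ pr h l := by
    refine Sys.map_ext h _ _ fun j s hjs q hq => ?_
    rw [LinearMap.comp_apply, LinearMap.comp_apply, A_str, map_add, map_smul, pr_str h l j _ q hq,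
      pr_str h l j _ q hq]
    split_ifs
    · rw [A_str]
    · simp
  exact LinearMap.congr_fun h1 v

theorem pr_P (h : Sys A B d a P d b Q) (l k : ℕ) (hk : k ≤ d) (v : V) :
    P k (pr h l v) = pr h l (P k v) := by
  have h1 : ∀ i ≤ d, A (pr h l (P i v)) = a i • pr h l (P i v) := by
    intro i hi
    rw [← pr_A, h.iA.eig i hi, map_smul]
  have h2 : ∀ i ≤ d, P i (pr h l (P i v)) = pr h l (P i v) := fun i hi =>
    h.iA.mem i hi _ (h1 i hi)
  conv_lhs => rw [← h.iA.sum v]
  rw [map_sum, map_sum, Finset.sum_eq_single k]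
  · exact h2 k hk
  · intro i hi hik
    have hi' : i ≤ d := by simpa [Nat.lt_succ_iff] using hi
    rw [← h2 i hi', h.iA.orth k hk i hi', if_neg (Ne.symm hik)]
  · intro hk'
    exact absurd (Finset.mem_range.mpr (by omega)) hk'

theorem pr_sum (h : Sys A B d a P d b Q) (v : V) :
    ∑ l ∈ Finset.range (d + 1), pr h l v = v := by
  have h1 : ∑ l ∈ Finset.range (d + 1), pr h l = LinearMap.id := by
    refine Sys.map_ext h _ _ fun j s hjs q hq => ?_
    rw [LinearMap.sum_apply, LinearMap.id_apply, Finset.sum_eq_single j]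
    · rw [pr_str h j j s q hq, if_pos rfl]
    · intro l _ hlj
      rw [pr_str h l j s q hq, if_neg (Ne.symm hlj)]
    · intro hj
      exact absurd (Finset.mem_range.mpr (by omega)) hj
  have h2 := LinearMap.congr_fun h1 v
  rwa [LinearMap.sum_apply] at h2

theorem pr_ext (h : Sys A B d a P d b Q) (v : V) (hv : ∀ l, pr h l v = 0) : v = 0 := by
  rw [← pr_sum h v]
  exact Finset.sum_eq_zero fun l _ => hv l

theorem comp1 (h : Sys A B d a P d b Q) (i : ℕ) (hi : i ≤ d) (v : V) (hv : v ∈ NN d P d Q i i)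
    (l : ℕ) : ∃ x ∈ LW d P Q l, pr h l v = aeval A (str a l (i - l)) x ∧
      (¬ (l ≤ i ∧ i + l ≤ d) → x = 0) ∧
      ∀ t, 2 * l + t ≤ d → (co h l t v : V) = if l + t = i then x else 0 := by
  obtain ⟨q, hq, hqe⟩ := Sys.gen h i hi v hv
  refine ⟨if l ≤ i ∧ i + l ≤ d then q l else 0, ?_, ?_, ?_, ?_⟩
  · split_ifs
    · exact hq l
    · exact Submodule.zero_mem _
  · rw [hqe, map_sum]
    have h1 : ∀ j ∈ (Finset.range (i + 1)).filter (fun j => i + j ≤ d),
        pr h l (aeval A (str a j (i - j)) (q j)) =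
          if j = l then aeval A (str a l (i - l)) (q l) else 0 := by
      intro j _
      rw [pr_str h l j _ _ (hq j)]
      split_ifs with hjl
      · subst hjl; rfl
      · rfl
    rw [Finset.sum_congr rfl h1, Finset.sum_ite_eq']
    by_cases hl : l ≤ i ∧ i + l ≤ d
    · rw [if_pos hl, if_pos (by rw [Finset.mem_filter, Finset.mem_range]; omega)]
    · rw [if_neg hl, if_neg (by rw [Finset.mem_filter, Finset.mem_range]; omega), map_zero]
  · intro hl
    rw [if_neg hl]
  · intro t ht
    rw [hqe, map_sum, Submodule.coe_sum]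
    have h1 : ∀ j ∈ (Finset.range (i + 1)).filter (fun j => i + j ≤ d),
        (co h l t (aeval A (str a j (i - j)) (q j)) : V) =
          if j = l then (if l + t = i then q l else 0) else 0 := by
      intro j hj
      rw [Finset.mem_filter, Finset.mem_range] at hj
      rw [co_str h l t ht j _ _ (hq j)]
      by_cases hjl : j = l
      · subst hjl
        rw [if_pos rfl]
        by_cases hjt : j + t = i
        · rw [if_pos hjt, if_pos ⟨rfl, by omega⟩]
        · rw [if_neg hjt, if_neg (by omega)]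
      · rw [if_neg hjl, if_neg (by omega)]
    rw [Finset.sum_congr rfl h1, Finset.sum_ite_eq']
    by_cases hlt : l + t = i
    · rw [if_pos (by rw [Finset.mem_filter, Finset.mem_range]; omega), if_pos hlt, if_pos hlt,
        if_pos (by omega)]
    · rw [if_neg hlt, if_neg hlt, ite_self]

/-- the components of an element of `U_{i-1} + U_i` -/
theorem comp2 (h : Sys A B d a P d b Q) (i : ℕ) (hi : i ≤ d) (v : V)
    (hv : v ∈ NN d P d Q i (i - 1)) (l : ℕ) :
    ∃ x ∈ LW d P Q l, ∃ y ∈ LW d P Q l,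
      pr h l v = aeval A (str a l (i - l)) x + aeval A (str a l (i - 1 - l)) y ∧
      (¬ (l ≤ i ∧ i + l ≤ d) → x = 0) ∧ (¬ (l + 1 ≤ i ∧ i + l ≤ d + 1) → y = 0) ∧
      (∀ t, 2 * l + t ≤ d → l + t = i → (co h l t v : V) = x) ∧
      (∀ t, 2 * l + t ≤ d → l + t + 1 = i → (co h l t v : V) = y) := by
  rcases i with _ | i
  · obtain ⟨x, hx, h1, h2, h3⟩ := comp1 h 0 hi v hv l
    refine ⟨x, hx, 0, Submodule.zero_mem _, ?_, h2, fun _ => rfl, fun t ht hl => ?_,
      fun t ht hl => by omega⟩
    · rw [h1, map_zero, add_zero]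
    · rw [h3 t ht, if_pos hl]
  · rw [Nat.add_sub_cancel] at hv
    obtain ⟨u, w, huw, hu, hw⟩ := Sys.split h i v
    have hwN : w ∈ NN d P d Q (i + 1) (i + 1) := by
      refine mem_NN.mpr ⟨fun k hk hik => ?_, hw⟩
      have : w = v - u := by rw [huw]; abel
      rw [this, map_sub, (mem_NN.mp hv).1 k hk hik, hu k hk (by omega), sub_zero]
    have huN : u ∈ NN d P d Q i i := by
      refine mem_NN.mpr ⟨hu, fun k hk hki => ?_⟩
      have : u = v - w := by rw [huw]; abel
      rw [this, map_sub, (mem_NN.mp hv).2 k hk hki, hw k hk (by omega), sub_zero]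
    obtain ⟨x, hx, h1, h2, h3⟩ := comp1 h (i + 1) hi w hwN l
    obtain ⟨y, hy, g1, g2, g3⟩ := comp1 h i (by omega) u huN l
    refine ⟨x, hx, y, hy, ?_, h2, fun hl => g2 (by omega), fun t ht hl => ?_, fun t ht hl => ?_⟩
    · rw [huw, map_add, h1, g1, Nat.add_sub_cancel, add_comm]
    · rw [huw, map_add, Submodule.coe_add, h3 t ht, g3 t ht, if_pos hl, if_neg (by omega),
        zero_add]
    · rw [huw, map_add, Submodule.coe_add, h3 t ht, g3 t ht, if_pos (show l + t = i by omega),
        if_neg (show ¬ l + t = i + 1 by omega), add_zero]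

/-- one point lemma -/
theorem one_pt (h : Sys A B d a P d b Q) (l t : ℕ) (hlt : 2 * l + t ≤ d) (y : V)
    (hy : y ∈ LW d P Q l) (h0 : P (d - l) (aeval A (str a l t) y) = 0) : y = 0 := by
  rw [P_aeval h.iA (d - l) (by omega)] at h0
  rcases smul_eq_zero.mp h0 with h1 | h1
  · exfalso
    rw [str_eval, Finset.prod_eq_zero_iff] at h1
    obtain ⟨s, hs, h4⟩ := h1
    have hs' := Finset.mem_range.mp hs
    have := h.iA.inj (d - l) (by omega) (l + s) (by omega) (sub_eq_zero.mp h4)
    omega
  · exact Sys.LW_inj h l (by omega) y hy h1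

/-- two points lemma -/
theorem two_pt (h : Sys A B d a P d b Q) (l t : ℕ) (hlt : 2 * l + t + 1 ≤ d) (x y : V)
    (hx : x ∈ LW d P Q l) (hy : y ∈ LW d P Q l)
    (h0 : P (d - l) (aeval A (str a l (t + 1)) x + aeval A (str a l t) y) = 0)
    (h1 : P (d - l - 1) (aeval A (str a l (t + 1)) x + aeval A (str a l t) y) = 0) :
    x = 0 ∧ y = 0 := by
  -- factor out `τ_{l,t}`
  have hfac : aeval A (str a l (t + 1)) x + aeval A (str a l t) y =
      aeval A (str a l t) ((A x - a (l + t) • x) + y) := by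
    have e0 : aeval A (X - C (a (l + t))) x = A x - a (l + t) • x := by
      rw [map_sub, aeval_X, aeval_C, LinearMap.sub_apply, Module.algebraMap_end_apply]
    rw [str_succ, map_mul, Module.End.mul_apply, e0, ← map_add]
  set w := (A x - a (l + t) • x) + y with hw
  have hne : ∀ k ≤ d, l + t ≤ k → (str a l t).eval (a k) ≠ 0 := by
    intro k hk hkt
    rw [str_eval, Finset.prod_ne_zero_iff]
    intro s hs h4
    have hs' := Finset.mem_range.mp hs
    have := h.iA.inj k hk (l + s) (by omega) (sub_eq_zero.mp h4)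
    omega
  rw [hfac, P_aeval h.iA (d - l) (by omega)] at h0
  rw [hfac, P_aeval h.iA (d - l - 1) (by omega)] at h1
  have h0' : P (d - l) w = 0 := (smul_eq_zero.mp h0).resolve_left (hne _ (by omega) (by omega))
  have h1' : P (d - l - 1) w = 0 := (smul_eq_zero.mp h1).resolve_left (hne _ (by omega) (by omega))
  have hw0 : w = 0 := by
    refine h.revA.disj (l + 1) (l + 2) (by omega) w (mem_NN.mpr ⟨fun k hk hlk => ?_,
      fun k hk hkl => ?_⟩)
    · have hxF := (mem_LW.mp hx).1
      have hyF := (mem_LW.mp hy).1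
      rw [hw, map_add, map_sub, map_smul, up_lemma h.iB h.triB l x hxF k hk hlk,
        hxF k hk (by omega), hyF k hk (by omega)]
      simp
    · show P (d - k) w = 0
      by_cases hk1 : k = l
      · rw [hk1]; exact h0'
      by_cases hk2 : k = l + 1
      · rw [hk2, show d - (l + 1) = d - l - 1 by omega]; exact h1'
      · have hxP := (mem_LW.mp hx).2.2 k hk (by omega)
        have hyP := (mem_LW.mp hy).2.2 k hk (by omega)
        rw [hw, map_add, map_sub, map_smul, h.iA.comm (d - k) (by omega), hxP, hyP]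
        simp
  have hstr : aeval A (str a l 1) x + aeval A (str a l 0) ((a l - a (l + t)) • x + y) = 0 := by
    rw [← hw0, hw, str_zero, map_one, Module.End.one_apply, str_succ, str_zero, one_mul, map_sub,
      aeval_X, aeval_C, LinearMap.sub_apply, Module.algebraMap_end_apply, add_zero, sub_smul]
    abel
  have hyl : (a l - a (l + t)) • x + y ∈ LW d P Q l :=
    Submodule.add_mem _ (Submodule.smul_mem _ _ hx) hy
  have e1 : (co h l 1 (aeval A (str a l 1) x) : V) +
      (co h l 1 (aeval A (str a l 0) ((a l - a (l + t)) • x + y)) : V) = 0 := by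
    rw [← Submodule.coe_add, ← map_add, hstr, map_zero]; rfl
  rw [co_str h l 1 (by omega) l 1 x hx, if_pos ⟨rfl, rfl⟩,
    co_str h l 1 (by omega) l 0 _ hyl, if_neg (by omega), add_zero] at e1
  have e2 : (co h l 0 (aeval A (str a l 1) x) : V) +
      (co h l 0 (aeval A (str a l 0) ((a l - a (l + t)) • x + y)) : V) = 0 := by
    rw [← Submodule.coe_add, ← map_add, hstr, map_zero]; rfl
  rw [co_str h l 0 (by omega) l 1 x hx, if_neg (by omega),
    co_str h l 0 (by omega) l 0 _ hyl, if_pos ⟨rfl, rfl⟩, zero_add, e1, smul_zero, zero_add] at e2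
  exact ⟨e1, e2⟩

end Pool.Agent.Helper40.TDF
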