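import Pool.Agent.Helper40.TDF.Exist

/-! The leading coordinates of the map defined by a family of parameters. -/

set_option autoImplicit false

namespace Pool.Agent.Helper40.TDF

open Polynomial Module Pool.Agent.Helper9.TD Pool.Agent.R841.TD

variable {K : Type*} [Field K] {V : Type*} [AddCommGroup V] [Module K V]

variable {A B : Module.End K V} {d : ℕ} {a b : ℕ → K} {P Q : ℕ → Module.End K V}
  {W X Y : Module.End K V}

theorem co_A (h : Sys A B d a P d b Q) (j s : ℕ) (hjs : 2 * j + s ≤ d) (j' s' : ℕ) (q : V)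
    (hq : q ∈ LW d P Q j') : (co h j s (aeval A (str a j' s') (A q)) : V) =
      (if j' = j ∧ s' + 1 = s then q else 0) +
        a (j' + s') • (if j' = j ∧ s' = s then q else 0) := by
  rw [← A_comm, A_str, map_add, map_smul, Submodule.coe_add, Submodule.coe_smul,
    co_str h j s hjs j' (s' + 1) q hq, co_str h j s hjs j' s' q hq]

theorem co_dn1 (h : Sys A B d a P d b Q) (l t : ℕ) (hlt : 2 * l + t ≤ d) (t' : ℕ)
    (z : ∀ j, LW d P Q (j + 1) →ₗ[K] LW d P Q j) (j : ℕ) (q : LW d P Q j) :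
    (co h l t (aeval A (str a (j - 1) t') (dn1 z j q)) : V) =
      if l + 1 = j ∧ t' = t then dn1 z j q else 0 := by
  rcases j with _ | j
  · have h0 : dn1 z 0 q = 0 := rfl
    rw [h0, map_zero, map_zero, if_neg (by omega)]
    rfl
  · rw [Nat.add_sub_cancel, co_str h l t hlt j t' _ (dn1_mem z (j + 1) q)]
    by_cases hc : j = l ∧ t' = t
    · rw [if_pos hc, if_pos (by omega)]
    · rw [if_neg hc, if_neg (by omega)]

theorem co_dn1A (h : Sys A B d a P d b Q) (l t : ℕ) (hlt : 2 * l + t ≤ d) (t' : ℕ)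
    (z : ∀ j, LW d P Q (j + 1) →ₗ[K] LW d P Q j) (j : ℕ) (q : LW d P Q j) :
    (co h l t (aeval A (str a (j - 1) t') (A (dn1 z j q))) : V) =
      (if l + 1 = j ∧ t' + 1 = t then dn1 z j q else 0) +
        a (j - 1 + t') • (if l + 1 = j ∧ t' = t then dn1 z j q else 0) := by
  rw [← A_comm, A_str, map_add, map_smul, Submodule.coe_add, Submodule.coe_smul,
    co_dn1 h l t hlt, co_dn1 h l t hlt]

theorem co_dn2 (h : Sys A B d a P d b Q) (l t : ℕ) (hlt : 2 * l + t ≤ d) (t' : ℕ)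
    (z : ∀ j, LW d P Q (j + 2) →ₗ[K] LW d P Q j) (j : ℕ) (q : LW d P Q j) :
    (co h l t (aeval A (str a (j - 2) t') (dn2 z j q)) : V) =
      if l + 2 = j ∧ t' = t then dn2 z j q else 0 := by
  rcases j with _ | _ | j
  · have h0 : dn2 z 0 q = 0 := rfl
    rw [h0, map_zero, map_zero, if_neg (by omega)]
    rfl
  · have h0 : dn2 z (0 + 1) q = 0 := rfl
    rw [h0, map_zero, map_zero, if_neg (by omega)]
    rfl
  · rw [show j + 1 + 1 - 2 = j by omega, co_str h l t hlt j t' _ (dn2_mem z (j + 1 + 1) q)]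
    by_cases hc : j = l ∧ t' = t
    · rw [if_pos hc, if_pos (by omega)]
    · rw [if_neg hc, if_neg (by omega)]

theorem co_dn2A (h : Sys A B d a P d b Q) (l t : ℕ) (hlt : 2 * l + t ≤ d) (t' : ℕ)
    (z : ∀ j, LW d P Q (j + 2) →ₗ[K] LW d P Q j) (j : ℕ) (q : LW d P Q j) :
    (co h l t (aeval A (str a (j - 2) t') (A (dn2 z j q))) : V) =
      (if l + 2 = j ∧ t' + 1 = t then dn2 z j q else 0) +
        a (j - 2 + t') • (if l + 2 = j ∧ t' = t then dn2 z j q else 0) := by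
  rw [← A_comm, A_str, map_add, map_smul, Submodule.coe_add, Submodule.coe_smul,
    co_dn2 h l t hlt, co_dn2 h l t hlt]

theorem dat_formula (h : Sys A B d a P d b Q) (β : K) (D : Dat (LW d P Q))
    (hX : Formula A d a β D X) (l t j s : ℕ) (hlt : 2 * l + t ≤ d) (hjs : 2 * j + s ≤ d)
    (hs : s ≤ 2) (q : LW d P Q j) : dat h X l t j s (q : V) =
      (if j = l ∧ s = t then (D.f0 j q : V) else 0) +
      AA d a j s • ((if j = l ∧ s - 1 = t then (D.f1 j q : V) else 0) +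
        ((if j = l ∧ s - 1 + 1 = t then (D.f2 j q : V) else 0) +
          a (j + (s - 1)) • (if j = l ∧ s - 1 = t then (D.f2 j q : V) else 0))) +
      TT β (s - 1) • (((if j = l ∧ s - 1 + 1 = t then (D.f3 j q : V) else 0) +
          a (j + (s - 1)) • (if j = l ∧ s - 1 = t then (D.f3 j q : V) else 0)) -
        a (d - j) • (if j = l ∧ s - 1 = t then (D.f3 j q : V) else 0)) +
      TT β (s - 1) • ((if j + 1 = l ∧ s - 2 = t then (D.g1 j q : V) else 0) +
        ((if j + 1 = l ∧ s - 2 + 1 = t then (D.g2 j q : V) else 0) +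
          a (j + 1 + (s - 2)) • (if j + 1 = l ∧ s - 2 = t then (D.g2 j q : V) else 0)) +
        a (j + s) • (if j + 1 = l ∧ s - 2 = t then (D.g3 j q : V) else 0)) +
      TT β s • (if j + 1 = l ∧ s - 1 = t then (D.g3 j q : V) else 0) +
      TT β (d + 1 - 2 * j - s) • ((if l + 1 = j ∧ s = t then dn1 D.h1 j q else 0) +
        ((if l + 1 = j ∧ s + 1 = t then dn1 D.h2 j q else 0) +
          a (j - 1 + s) • (if l + 1 = j ∧ s = t then dn1 D.h2 j q else 0)) +
        a (j + s) • (if l + 1 = j ∧ s = t then dn1 D.h3 j q else 0)) +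
      TT β (d - 2 * j - s) • (if l + 1 = j ∧ s + 1 = t then dn1 D.h3 j q else 0) +
      TT β (s - 1) • (if j + 2 = l ∧ s - 2 = t then (D.k j q : V) else 0) +
      TT β (d + 1 - 2 * j - s) • (((if l + 2 = j ∧ s + 1 + 1 = t then dn2 D.l j q else 0) +
          a (j - 2 + (s + 1)) • (if l + 2 = j ∧ s + 1 = t then dn2 D.l j q else 0)) -
        a (d + 2 - j) • (if l + 2 = j ∧ s + 1 = t then dn2 D.l j q else 0)) := by
  have e0 : dat h X l t j s (q : V) = (co h l t (X (tau A a j s (q : V))) : V) := rfl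
  have e1 : str a (j + 1) (s - 2) = str a (j + 2) (s - 2) := by
    rw [show s - 2 = 0 by omega, str_zero, str_zero]
  have e2 : (co h l t (aeval A (str a (j + 1) (s - 2)) (D.k j q : V)) : V) =
      if j + 2 = l ∧ s - 2 = t then (D.k j q : V) else 0 := by
    rw [e1]
    exact co_str h l t hlt (j + 2) (s - 2) _ (D.k j q).2
  rw [e0, hX j s hjs q]
  simp only [tau, map_add, map_sub, map_smul, Submodule.coe_add, Submodule.coe_sub,
    Submodule.coe_smul]
  rw [e2, co_str h l t hlt j s _ (D.f0 j q).2, co_str h l t hlt j (s - 1) _ (D.f1 j q).2,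
    co_A h l t hlt j (s - 1) _ (D.f2 j q).2, co_A h l t hlt j (s - 1) _ (D.f3 j q).2,
    co_str h l t hlt j (s - 1) _ (D.f3 j q).2, co_str h l t hlt (j + 1) (s - 2) _ (D.g1 j q).2,
    co_A h l t hlt (j + 1) (s - 2) _ (D.g2 j q).2,
    co_str h l t hlt (j + 1) (s - 2) _ (D.g3 j q).2,
    co_str h l t hlt (j + 1) (s - 1) _ (D.g3 j q).2,
    co_dn1 h l t hlt, co_dn1A h l t hlt, co_dn1 h l t hlt, co_dn1 h l t hlt, co_dn2A h l t hlt,
    co_dn2 h l t hlt]

/-- the leading coordinates in terms of the parameters -/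
structure Val (h : Sys A B d a P d b Q) (β : K) (X : Module.End K V) (D : Dat (LW d P Q)) :
    Prop where
  f0 : ∀ j, 2 * j ≤ d → ∀ q : LW d P Q j, dat h X j 0 j 0 q = (D.f0 j q : V)
  f1 : ∀ j, 2 * j + 1 ≤ d → ∀ q : LW d P Q j, dat h X j 0 j 1 q =
    AA d a j 1 • ((D.f1 j q : V) + a j • (D.f2 j q : V))
  f2 : ∀ j, 2 * j + 1 ≤ d → ∀ q : LW d P Q j, dat h X j 1 j 1 q =
    (D.f0 j q : V) + AA d a j 1 • (D.f2 j q : V)
  f3 : ∀ j, 2 * j + 2 ≤ d → ∀ q : LW d P Q j, dat h X j 2 j 2 q =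
    (D.f0 j q : V) + AA d a j 2 • (D.f2 j q : V) + (D.f3 j q : V)
  g1 : ∀ j, 2 * j + 2 ≤ d → ∀ q : LW d P Q j, dat h X (j + 1) 0 j 2 q =
    (D.g1 j q : V) + a (j + 1) • (D.g2 j q : V) + a (j + 2) • (D.g3 j q : V)
  g2 : ∀ j, 2 * j + 3 ≤ d → ∀ q : LW d P Q j, dat h X (j + 1) 1 j 2 q =
    (D.g2 j q : V) + TT β 2 • (D.g3 j q : V)
  g3 : ∀ j, 2 * j + 2 ≤ d → ∀ q : LW d P Q j, dat h X (j + 1) 0 j 1 q = (D.g3 j q : V)
  h1 : ∀ j, 2 * j + 2 ≤ d → ∀ q : LW d P Q (j + 1), dat h X j 0 (j + 1) 0 q =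
    TT β (d - 1 - 2 * j) • ((D.h1 j q : V) + a j • (D.h2 j q : V) + a (j + 1) • (D.h3 j q : V))
  h2 : ∀ j, 2 * j + 2 ≤ d → ∀ q : LW d P Q (j + 1), dat h X j 1 (j + 1) 0 q =
    TT β (d - 1 - 2 * j) • (D.h2 j q : V) + TT β (d - 2 - 2 * j) • (D.h3 j q : V)
  h3 : ∀ j, 2 * j + 3 ≤ d → ∀ q : LW d P Q (j + 1), dat h X j 2 (j + 1) 1 q =
    TT β (d - 2 - 2 * j) • (D.h2 j q : V) + TT β (d - 3 - 2 * j) • (D.h3 j q : V)
  k : ∀ j, 2 * j + 4 ≤ d → ∀ q : LW d P Q j, dat h X (j + 2) 0 j 2 q = (D.k j q : V)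
  l : ∀ j, 2 * j + 4 ≤ d → ∀ q : LW d P Q (j + 2), dat h X j 2 (j + 2) 0 q =
    TT β (d - 3 - 2 * j) • (D.l j q : V)

theorem dn1_succ {L : ℕ → Submodule K V} (z : ∀ j, L (j + 1) →ₗ[K] L j) (j : ℕ)
    (q : L (j + 1)) : dn1 z (j + 1) q = (z j q : V) := rfl

theorem dn2_succ {L : ℕ → Submodule K V} (z : ∀ j, L (j + 2) →ₗ[K] L j) (j : ℕ)
    (q : L (j + 2)) : dn2 z (j + 2) q = (z j q : V) := rfl

theorem val_of_formula (h : Sys A B d a P d b Q) (β : K) (D : Dat (LW d P Q))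
    (hX : Formula A d a β D X) : Val h β X D := by
  have T0 : TT β 0 = 0 := rfl
  have T1 : TT β 1 = 1 := rfl
  refine ⟨?_, ?_, ?_, ?_, ?_, ?_, ?_, ?_, ?_, ?_, ?_, ?_⟩
  · intro j hj q
    rw [dat_formula h β D hX j 0 j 0 (by omega) (by omega) (by omega) q]
    simp [AA_zero, T0]
  · intro j hj q
    rw [dat_formula h β D hX j 0 j 1 (by omega) (by omega) (by omega) q]
    simp [T0]
  · intro j hj q
    rw [dat_formula h β D hX j 1 j 1 (by omega) (by omega) (by omega) q]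
    simp [T0]
  · intro j hj q
    rw [dat_formula h β D hX j 2 j 2 (by omega) (by omega) (by omega) q]
    simp [T1]
  · intro j hj q
    rw [dat_formula h β D hX (j + 1) 0 j 2 (by omega) (by omega) (by omega) q]
    simp [T1]
  · intro j hj q
    rw [dat_formula h β D hX (j + 1) 1 j 2 (by omega) (by omega) (by omega) q]
    simp [T1]
  · intro j hj q
    rw [dat_formula h β D hX (j + 1) 0 j 1 (by omega) (by omega) (by omega) q]
    simp [T0, T1]
  · intro j hj q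
    rw [dat_formula h β D hX j 0 (j + 1) 0 (by omega) (by omega) (by omega) q]
    rw [show d + 1 - 2 * (j + 1) - 0 = d - 1 - 2 * j by omega]
    simp [T0, AA_zero, dn1_succ]
  · intro j hj q
    rw [dat_formula h β D hX j 1 (j + 1) 0 (by omega) (by omega) (by omega) q]
    rw [show d + 1 - 2 * (j + 1) - 0 = d - 1 - 2 * j by omega,
      show d - 2 * (j + 1) - 0 = d - 2 - 2 * j by omega]
    simp [T0, AA_zero, dn1_succ]
  · intro j hj q
    rw [dat_formula h β D hX j 2 (j + 1) 1 (by omega) (by omega) (by omega) q]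
    rw [show d + 1 - 2 * (j + 1) - 1 = d - 2 - 2 * j by omega,
      show d - 2 * (j + 1) - 1 = d - 3 - 2 * j by omega]
    simp [T0, dn1_succ]
  · intro j hj q
    rw [dat_formula h β D hX (j + 2) 0 j 2 (by omega) (by omega) (by omega) q]
    simp [T1]
  · intro j hj q
    rw [dat_formula h β D hX j 2 (j + 2) 0 (by omega) (by omega) (by omega) q]
    rw [show d + 1 - 2 * (j + 2) - 0 = d - 3 - 2 * j by omega]
    simp [T0, AA_zero, dn2_succ]

end Pool.Agent.Helper40.TDF
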