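import Pool.Graph.R_seed8.R841.TD.Dim

/-! The definitions used in the statement. -/

set_option autoImplicit false

namespace Pool.Agent.Helper40.TDF

open Polynomial Module Pool.Agent.Helper9.TD Pool.Agent.R841.TD

variable {K : Type*} [Field K] {V : Type*} [AddCommGroup V] [Module K V]

/-- `X V*_i ⊆ V*_0 + ⋯ + V*_i` and `X V_i ⊆ V_{i-1} + V_i + V_{i+1}` for `0 ≤ i ≤ d`, where `V_i`,
`V*_i` are the eigenspaces of `A`, `B` for the eigenvalues `a i`, `b i`. -/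
def IsFlagTri (A B : Module.End K V) (d : ℕ) (a b : ℕ → K) (X : Module.End K V) : Prop :=
  (∀ i ≤ d, ∀ v ∈ B.eigenspace (b i), X v ∈ ⨆ (k : ℕ) (_ : k ≤ i), B.eigenspace (b k)) ∧
  (∀ i ≤ d, ∀ v ∈ A.eigenspace (a i),
    X v ∈ ⨆ (k : ℕ) (_ : k ≤ d ∧ k ≤ i + 1 ∧ i ≤ k + 1), A.eigenspace (a k))

/-- The space of the linear maps `X` with `X V*_i ⊆ V*_0 + ⋯ + V*_i` and
`X V_i ⊆ V_{i-1} + V_i + V_{i+1}` for `0 ≤ i ≤ d`. -/
def FlagTri (A B : Module.End K V) (d : ℕ) (a b : ℕ → K) : Submodule K (Module.End K V) where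
  carrier := {X | IsFlagTri A B d a b X}
  add_mem' := fun h h' => ⟨fun i hi v hv => Submodule.add_mem _ (h.1 i hi v hv) (h'.1 i hi v hv),
    fun i hi v hv => Submodule.add_mem _ (h.2 i hi v hv) (h'.2 i hi v hv)⟩
  zero_mem' := ⟨fun _ _ _ _ => Submodule.zero_mem _, fun _ _ _ _ => Submodule.zero_mem _⟩
  smul_mem' := fun c _ h => ⟨fun i hi v hv => Submodule.smul_mem _ c (h.1 i hi v hv),
    fun i hi v hv => Submodule.smul_mem _ c (h.2 i hi v hv)⟩

/-- Families of linear maps `L_j → L_j` (`f0, f1, f2, f3`), `L_j → L_{j+1}` (`g1, g2, g3`),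
`L_{j+1} → L_j` (`h1, h2, h3`), `L_j → L_{j+2}` (`k`) and `L_{j+2} → L_j` (`l`). -/
structure Dat (L : ℕ → Submodule K V) where
  f0 : Fam L L
  f1 : Fam L L
  f2 : Fam L L
  f3 : Fam L L
  g1 : Fam L (fun j => L (j + 1))
  g2 : Fam L (fun j => L (j + 1))
  g3 : Fam L (fun j => L (j + 1))
  h1 : Fam (fun j => L (j + 1)) L
  h2 : Fam (fun j => L (j + 1)) L
  h3 : Fam (fun j => L (j + 1)) L
  k : Fam L (fun j => L (j + 2))
  l : Fam (fun j => L (j + 2)) L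

/-- `τ_{j,s} f0_j q + α_{j,s} τ_{j,s-1} (f1_j q + A f2_j q) + T_{s-1} τ_{j,s-1} (A - a_{d-j}) f3_j q`
-/
noncomputable def termF (A : Module.End K V) (d : ℕ) (a : ℕ → K) (β : K) {L : ℕ → Submodule K V}
    (D : Dat L) (j s : ℕ) (q : L j) : V :=
  tau A a j s (ap D.f0 j q) +
    AA d a j s • tau A a j (s - 1) (ap D.f1 j q + A (ap D.f2 j q)) +
    TT β (s - 1) • tau A a j (s - 1) (A (ap D.f3 j q) - a (d - j) • ap D.f3 j q)

/-- `T_{s-1} τ_{j+1,s-2} (g1_j q + A g2_j q + a_{j+s} g3_j q) + T_s τ_{j+1,s-1} g3_j q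
+ T_{s-1} τ_{j+1,s-2} k_j q` -/
noncomputable def termG (A : Module.End K V) (a : ℕ → K) (β : K) {L : ℕ → Submodule K V}
    (D : Dat L) (j s : ℕ) (q : L j) : V :=
  TT β (s - 1) • tau A a (j + 1) (s - 2)
      (ap D.g1 j q + A (ap D.g2 j q) + a (j + s) • ap D.g3 j q) +
    TT β s • tau A a (j + 1) (s - 1) (ap D.g3 j q) +
    TT β (s - 1) • tau A a (j + 1) (s - 2) (ap D.k j q)

/-- `T_{d-1-2j-s} τ_{j,s} (h1_j q + A h2_j q + a_{j+1+s} h3_j q) + T_{d-2-2j-s} τ_{j,s+1} h3_j q`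
for `q ∈ L_{j+1}` -/
noncomputable def termH (A : Module.End K V) (d : ℕ) (a : ℕ → K) (β : K) {L : ℕ → Submodule K V}
    (D : Dat L) (j s : ℕ) (q : L (j + 1)) : V :=
  TT β (d - 1 - 2 * j - s) • tau A a j s
      (ap D.h1 j q + A (ap D.h2 j q) + a (j + 1 + s) • ap D.h3 j q) +
    TT β (d - 2 - 2 * j - s) • tau A a j (s + 1) (ap D.h3 j q)

/-- `T_{d-3-2j-s} τ_{j,s+1} (A - a_{d-j}) l_j q` for `q ∈ L_{j+2}` -/
noncomputable def termL (A : Module.End K V) (d : ℕ) (a : ℕ → K) (β : K) {L : ℕ → Submodule K V}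
    (D : Dat L) (j s : ℕ) (q : L (j + 2)) : V :=
  TT β (d - 3 - 2 * j - s) • tau A a j (s + 1) (A (ap D.l j q) - a (d - j) • ap D.l j q)

/-- The formula for `X` on the strings `τ_{0,s} q`, `q ∈ L_0`. -/
def OnZero (A : Module.End K V) (d : ℕ) (a : ℕ → K) (β : K) {L : ℕ → Submodule K V}
    (D : Dat L) (X : Module.End K V) : Prop :=
  ∀ s ≤ d, ∀ q : L 0, X (tau A a 0 s q) = termF A d a β D 0 s q + termG A a β D 0 s q

/-- The formula for `X` on the strings `τ_{1,s} q`, `q ∈ L_1`. -/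
def OnOne (A : Module.End K V) (d : ℕ) (a : ℕ → K) (β : K) {L : ℕ → Submodule K V}
    (D : Dat L) (X : Module.End K V) : Prop :=
  ∀ s, 2 + s ≤ d → ∀ q : L 1, X (tau A a 1 s q) =
    termF A d a β D 1 s q + termG A a β D 1 s q + termH A d a β D 0 s q

/-- The formula for `X` on the strings `τ_{j+2,s} q`, `q ∈ L_{j+2}`. -/
def OnSucc (A : Module.End K V) (d : ℕ) (a : ℕ → K) (β : K) {L : ℕ → Submodule K V}
    (D : Dat L) (X : Module.End K V) (j : ℕ) : Prop :=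
  ∀ s, 2 * (j + 2) + s ≤ d → ∀ q : L (j + 2), X (tau A a (j + 2) s q) =
    termF A d a β D (j + 2) s q + termG A a β D (j + 2) s q + termH A d a β D (j + 1) s q +
      termL A d a β D j s q

/-- `X` is the map given by the family `D` of linear maps. -/
def IsMap (A : Module.End K V) (d : ℕ) (a : ℕ → K) (β : K) {L : ℕ → Submodule K V}
    (D : Dat L) (X : Module.End K V) : Prop :=
  OnZero A d a β D X ∧ OnOne A d a β D X ∧ ∀ j, OnSucc A d a β D X j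

/-- `f_j = 0` unless `2j + c ≤ d` -/
def Supp {L L' : ℕ → Submodule K V} (f : Fam L L') (d c : ℕ) : Prop :=
  ∀ j, d < 2 * j + c → f j = 0

/-- `f0_j = 0` unless `2j ≤ d`; `f1_j = f2_j = 0` unless `2j+1 ≤ d`;
`f3_j = g1_j = g3_j = h1_j = h2_j = 0` unless `2j+2 ≤ d`; `g2_j = h3_j = 0` unless `2j+3 ≤ d`;
`k_j = l_j = 0` unless `2j+4 ≤ d`. -/
def InRange {L : ℕ → Submodule K V} (d : ℕ) (D : Dat L) : Prop :=
  Supp D.f0 d 0 ∧ Supp D.f1 d 1 ∧ Supp D.f2 d 1 ∧ Supp D.f3 d 2 ∧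
  Supp D.g1 d 2 ∧ Supp D.g2 d 3 ∧ Supp D.g3 d 2 ∧
  Supp D.h1 d 2 ∧ Supp D.h2 d 2 ∧ Supp D.h3 d 3 ∧ Supp D.k d 4 ∧ Supp D.l d 4

/-- Every family `D` defines exactly one `X`, and this `X` satisfies the two conditions. -/
def Makes (A B : Module.End K V) (d : ℕ) (a b : ℕ → K) (β : K) : Prop :=
  ∀ D : Dat (Low A B d a b), (∃! X, IsMap A d a β D X) ∧
    ∀ X, IsMap A d a β D X → IsFlagTri A B d a b X

/-- Every `X` with the two conditions is defined by exactly one family `D` that is in range. -/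
def Covers (A B : Module.End K V) (d : ℕ) (a b : ℕ → K) (β : K) : Prop :=
  ∀ X, IsFlagTri A B d a b X → ∃! D : Dat (Low A B d a b), InRange d D ∧ IsMap A d a β D X

/-- `n_j = dim L_j` -/
noncomputable def nn (A B : Module.End K V) (d : ℕ) (a b : ℕ → K) (j : ℕ) : ℕ :=
  finrank K (Low A B d a b j)

/-- `dim {X}` in terms of `n_j = dim L_j` -/
def DimFlagTri (A B : Module.End K V) (d : ℕ) (a b : ℕ → K) : Prop :=
  finrank K (FlagTri A B d a b) =
    ∑ j ∈ Finset.range (d / 2 + 1), nn A B d a b j ^ 2 +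
    2 * ∑ j ∈ Finset.range ((d + 1) / 2), nn A B d a b j ^ 2 +
    ∑ j ∈ Finset.range (d / 2), nn A B d a b j ^ 2 +
    4 * ∑ j ∈ Finset.range (d / 2), nn A B d a b j * nn A B d a b (j + 1) +
    2 * ∑ j ∈ Finset.range ((d - 1) / 2), nn A B d a b j * nn A B d a b (j + 1) +
    2 * ∑ j ∈ Finset.range (d / 2 - 1), nn A B d a b j * nn A B d a b (j + 2)

end Pool.Agent.Helper40.TDF
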