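import Pool.Agent.Helper40.TDF.Form

/-! Every family of parameters defines a map, which satisfies the conditions. -/

set_option autoImplicit false

namespace Pool.Agent.Helper40.TDF

open Polynomial Module Pool.Agent.Helper9.TD Pool.Agent.R841.TD

variable {K : Type*} [Field K] {V : Type*} [AddCommGroup V] [Module K V]

variable {A B : Module.End K V} {d : ℕ} {a b : ℕ → K} {P Q : ℕ → Module.End K V}
  {W X Y : Module.End K V}

theorem zV_eq_dn1 (z : ∀ j, LW d P Q (j + 1) →ₗ[K] LW d P Q j) (j : ℕ) (q : LW d P Q j) :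
    zV z j q = dn1 z j q := by
  rcases j with _ | j <;> rfl

theorem A_comm (p : K[X]) (v : V) : A (aeval A p v) = aeval A p (A v) := by
  have h1 : aeval A (Polynomial.X * p) = aeval A (p * Polynomial.X) := by rw [mul_comm]
  rw [map_mul, map_mul, aeval_X] at h1
  exact LinearMap.congr_fun h1 v

theorem exists_W (h : Sys A B d a P d b Q) (β : K)
    (hrec : ∀ i, i + 3 ≤ d → a i - a (i + 3) = (β + 1) * (a (i + 1) - a (i + 2)))
    (D : Dat (LW d P Q)) : ∃ W : Module.End K V, SF d P Q W ∧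
      ∀ j s, 2 * j + s ≤ d → ∀ q : LW d P Q j, W (aeval A (str a j s) (q : V)) =
        Wv A d a β j s (D.f0 j q) (D.f3 j q) (D.k j q) (dn2 D.l j q) := by
  classical
  obtain ⟨W, hW⟩ := Sys.exists_map h (W := V) (fun j s =>
    aeval A (str a j s) ∘ₗ (LW d P Q j).subtype ∘ₗ D.f0 j +
    TT β (s - 1) • (aeval A (str a j (s - 1)) ∘ₗ (A - a (d - j) • LinearMap.id) ∘ₗ
      (LW d P Q j).subtype ∘ₗ D.f3 j) +
    TT β (s - 1) • (aeval A (str a (j + 1) (s - 2)) ∘ₗ (LW d P Q (j + 2)).subtype ∘ₗ D.k j) +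
    TT β (d + 1 - 2 * j - s) • (aeval A (str a (j - 2) (s + 1)) ∘ₗ
      (A - a (d + 2 - j) • LinearMap.id) ∘ₗ dn2 D.l j))
  have hW' : ∀ j s, 2 * j + s ≤ d → ∀ q : LW d P Q j, W (aeval A (str a j s) (q : V)) =
      Wv A d a β j s (D.f0 j q) (D.f3 j q) (D.k j q) (dn2 D.l j q) :=
    fun j s hjs q => hW j s hjs q
  refine ⟨W, ?_, hW'⟩
  let x : ℕ → V → V := fun j v => if hv : v ∈ LW d P Q j then (D.f0 j ⟨v, hv⟩ : V) else 0
  let y : ℕ → V → V := fun j v => if hv : v ∈ LW d P Q j then (D.f3 j ⟨v, hv⟩ : V) else 0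
  let z : ℕ → V → V := fun j v => if hv : v ∈ LW d P Q j then (D.k j ⟨v, hv⟩ : V) else 0
  let w : ℕ → V → V := fun j v => if hv : v ∈ LW d P Q j then dn2 D.l j ⟨v, hv⟩ else 0
  have ex : ∀ j, ∀ q (hq : q ∈ LW d P Q j), x j q = (D.f0 j ⟨q, hq⟩ : V) :=
    fun j q hq => dif_pos hq
  have ey : ∀ j, ∀ q (hq : q ∈ LW d P Q j), y j q = (D.f3 j ⟨q, hq⟩ : V) :=
    fun j q hq => dif_pos hq
  have ez : ∀ j, ∀ q (hq : q ∈ LW d P Q j), z j q = (D.k j ⟨q, hq⟩ : V) :=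
    fun j q hq => dif_pos hq
  have ew : ∀ j, ∀ q (hq : q ∈ LW d P Q j), w j q = dn2 D.l j ⟨q, hq⟩ :=
    fun j q hq => dif_pos hq
  refine W_SF h β hrec x y z w ?_ ?_ ?_ ?_ ?_ ?_
  · intro j q hq; rw [ex j q hq]; exact (D.f0 j ⟨q, hq⟩).2
  · intro j q hq; rw [ey j q hq]; exact (D.f3 j ⟨q, hq⟩).2
  · intro j q hq; rw [ez j q hq]; exact (D.k j ⟨q, hq⟩).2
  · intro j q hq; rw [ew j q hq]; exact dn2_mem D.l j ⟨q, hq⟩
  · intro j q hq hj
    rw [ew j q hq]
    rcases j with _ | _ | j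
    · rfl
    · rfl
    · omega
  · intro j s hjs q hq
    rw [ex j q hq, ey j q hq, ez j q hq, ew j q hq]
    exact hW' j s hjs ⟨q, hq⟩

theorem exists_X (h : Sys A B d a P d b Q) (β : K)
    (hrec : ∀ i, i + 3 ≤ d → a i - a (i + 3) = (β + 1) * (a (i + 1) - a (i + 2)))
    (D : Dat (LW d P Q)) : ∃ X : Module.End K V, SF d P Q X ∧ Formula A d a β D X := by
  obtain ⟨W, hWS, hW⟩ := exists_W h β hrec D
  obtain ⟨Y1, hY1⟩ := Sys.exists_X h β D.f1 D.g1 D.h1
  obtain ⟨Y2, hY2⟩ := Sys.exists_X h β D.f2 D.g2 D.h2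
  obtain ⟨Y3, hY3⟩ := Sys.exists_X h β (fun _ => 0) D.g3 D.h3
  have S1 := Fml.SL h β hrec _ _ _ hY1
  have S2 := Fml.SL h β hrec _ _ _ hY2
  have S3 := Fml.SL h β hrec _ _ _ hY3
  refine ⟨W + Y1 + A ∘ₗ Y2 + Y3 ∘ₗ A, ((hWS.add (SF.of_SL S1)).add (SF.of_SL_left h S2)).add
    (SF.of_SL_right h S3), ?_⟩
  intro j s hjs q
  -- the last term
  have e3 : Y3 (A (aeval A (str a j s) (q : V))) =
      TT β s • aeval A (str a (j + 1) (s - 1)) (D.g3 j q : V) +
      TT β (d - 2 * j - s) • aeval A (str a (j - 1) (s + 1)) (dn1 D.h3 j q) +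
      a (j + s) • (TT β (s - 1) • aeval A (str a (j + 1) (s - 2)) (D.g3 j q : V) +
        TT β (d + 1 - 2 * j - s) • aeval A (str a (j - 1) s) (dn1 D.h3 j q)) := by
    rw [A_str, map_add, map_smul, hY3 j s hjs q, zV_eq_dn1]
    have e4 : Y3 (aeval A (str a j (s + 1)) (q : V)) =
        TT β s • aeval A (str a (j + 1) (s - 1)) (D.g3 j q : V) +
        TT β (d - 2 * j - s) • aeval A (str a (j - 1) (s + 1)) (dn1 D.h3 j q) := by
      by_cases hs : 2 * j + (s + 1) ≤ d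
      · rw [hY3 j (s + 1) hs q, zV_eq_dn1, show d + 1 - 2 * j - (s + 1) = d - 2 * j - s by omega,
          show s + 1 - 1 = s by omega, show s + 1 - 2 = s - 1 by omega]
        simp
      · rw [Sys.kill h j (s + 1) (by omega) _ q.2, map_zero, show d - 2 * j - s = 0 by omega]
        have hT0 : TT β 0 = 0 := rfl
        rw [hT0, zero_smul, add_zero]
        rcases s with _ | s
        · rw [hT0, zero_smul]
        · rw [Sys.kill h (j + 1) (s + 1 - 1) (by omega) _ (D.g3 j q).2, smul_zero]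
    rw [e4]
    simp
  show W (aeval A (str a j s) (q : V)) + Y1 (aeval A (str a j s) (q : V)) +
    A (Y2 (aeval A (str a j s) (q : V))) + Y3 (A (aeval A (str a j s) (q : V))) = _
  rw [hW j s hjs q, hY1 j s hjs q, hY2 j s hjs q, e3, zV_eq_dn1, zV_eq_dn1, Wv]
  simp only [tau, map_add, map_sub, map_smul, A_comm]
  module

end Pool.Agent.Helper40.TDF
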