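import Pool.Agent.Helper40.TDF.Data

/-! The final form: parametrization and dimension. -/

set_option autoImplicit false

namespace Pool.Agent.Helper40.TDF

open Polynomial Module Pool.Agent.Helper9.TD Pool.Agent.R841.TD

variable {K : Type*} [Field K] {V : Type*} [AddCommGroup V] [Module K V]

/-- The parameters: linear maps
`f0_j : L_j → L_j` (`2j ≤ d`), `f1_j, f2_j : L_j → L_j` (`2j+1 ≤ d`), `f3_j : L_j → L_j`
(`2j+2 ≤ d`), `g1_j : L_j → L_{j+1}` (`2j+2 ≤ d`), `g2_j : L_j → L_{j+1}` (`2j+3 ≤ d`),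
`g3_j : L_j → L_{j+1}` (`2j+2 ≤ d`), `h1_j, h2_j : L_{j+1} → L_j` (`2j+2 ≤ d`),
`h3_j : L_{j+1} → L_j` (`2j+3 ≤ d`), `k_j : L_j → L_{j+2}` and `l_j : L_{j+2} → L_j`
(`2j+4 ≤ d`). -/
abbrev Par (L : ℕ → Submodule K V) (d : ℕ) : Type _ :=
  (∀ j : Fin (d / 2 + 1), L j →ₗ[K] L j) × (∀ j : Fin ((d + 1) / 2), L j →ₗ[K] L j) ×
  (∀ j : Fin ((d + 1) / 2), L j →ₗ[K] L j) × (∀ j : Fin (d / 2), L j →ₗ[K] L j) ×
  (∀ j : Fin (d / 2), L j →ₗ[K] L (j + 1)) × (∀ j : Fin ((d - 1) / 2), L j →ₗ[K] L (j + 1)) ×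
  (∀ j : Fin (d / 2), L j →ₗ[K] L (j + 1)) × (∀ j : Fin (d / 2), L (j + 1) →ₗ[K] L j) ×
  (∀ j : Fin (d / 2), L (j + 1) →ₗ[K] L j) × (∀ j : Fin ((d - 1) / 2), L (j + 1) →ₗ[K] L j) ×
  (∀ j : Fin (d / 2 - 1), L j →ₗ[K] L (j + 2)) × (∀ j : Fin (d / 2 - 1), L (j + 2) →ₗ[K] L j)

/-- extension by zero -/
def xt {n : ℕ} {L L' : ℕ → Submodule K V} (f : ∀ j : Fin n, L j →ₗ[K] L' j) (j : ℕ) :
    L j →ₗ[K] L' j :=
  if hj : j < n then f ⟨j, hj⟩ else 0

/-- the parameters, extended by zero -/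
def dt {L : ℕ → Submodule K V} {d : ℕ} (p : Par L d) : Dat L where
  f0 := xt p.1
  f1 := xt p.2.1
  f2 := xt p.2.2.1
  f3 := xt p.2.2.2.1
  g1 := xt (L' := fun j => L (j + 1)) p.2.2.2.2.1
  g2 := xt (L' := fun j => L (j + 1)) p.2.2.2.2.2.1
  g3 := xt (L' := fun j => L (j + 1)) p.2.2.2.2.2.2.1
  h1 := xt (L := fun j => L (j + 1)) p.2.2.2.2.2.2.2.1
  h2 := xt (L := fun j => L (j + 1)) p.2.2.2.2.2.2.2.2.1
  h3 := xt (L := fun j => L (j + 1)) p.2.2.2.2.2.2.2.2.2.1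
  k := xt (L' := fun j => L (j + 2)) p.2.2.2.2.2.2.2.2.2.2.1
  l := xt (L := fun j => L (j + 2)) p.2.2.2.2.2.2.2.2.2.2.2

section xt

variable {n : ℕ} {L L' : ℕ → Submodule K V}

theorem xt_lt (f : ∀ j : Fin n, L j →ₗ[K] L' j) (j : ℕ) (hj : j < n) : xt f j = f ⟨j, hj⟩ :=
  dif_pos hj

theorem xt_ge (f : ∀ j : Fin n, L j →ₗ[K] L' j) (j : ℕ) (hj : n ≤ j) : xt f j = 0 :=
  dif_neg (by omega)

theorem xt_add (f g : ∀ j : Fin n, L j →ₗ[K] L' j) (j : ℕ) :
    xt (f + g) j = xt f j + xt g j := by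
  unfold xt
  split_ifs
  · rfl
  · rw [add_zero]

theorem xt_smul (c : K) (f : ∀ j : Fin n, L j →ₗ[K] L' j) (j : ℕ) :
    xt (c • f) j = c • xt f j := by
  unfold xt
  split_ifs
  · rfl
  · rw [smul_zero]

theorem xt_res (f : ∀ j : ℕ, L j →ₗ[K] L' j) (j : ℕ) (hj : j < n) :
    xt (fun j : Fin n => f j) j = f j := xt_lt _ j hj

end xt

section dat

variable {L : ℕ → Submodule K V}

/-- sum of two families of parameters -/
def Dat.add (D D' : Dat L) : Dat L where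
  f0 j := D.f0 j + D'.f0 j
  f1 j := D.f1 j + D'.f1 j
  f2 j := D.f2 j + D'.f2 j
  f3 j := D.f3 j + D'.f3 j
  g1 j := D.g1 j + D'.g1 j
  g2 j := D.g2 j + D'.g2 j
  g3 j := D.g3 j + D'.g3 j
  h1 j := D.h1 j + D'.h1 j
  h2 j := D.h2 j + D'.h2 j
  h3 j := D.h3 j + D'.h3 j
  k j := D.k j + D'.k j
  l j := D.l j + D'.l j

/-- scalar multiple of a family of parameters -/
def Dat.smul (c : K) (D : Dat L) : Dat L where
  f0 j := c • D.f0 j
  f1 j := c • D.f1 j
  f2 j := c • D.f2 j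
  f3 j := c • D.f3 j
  g1 j := c • D.g1 j
  g2 j := c • D.g2 j
  g3 j := c • D.g3 j
  h1 j := c • D.h1 j
  h2 j := c • D.h2 j
  h3 j := c • D.h3 j
  k j := c • D.k j
  l j := c • D.l j

theorem dt_add {d : ℕ} (p p' : Par L d) : dt (p + p') = (dt p).add (dt p') := by
  unfold dt Dat.add
  simp only [Prod.fst_add, Prod.snd_add, Dat.mk.injEq]
  refine ⟨?_, ?_, ?_, ?_, ?_, ?_, ?_, ?_, ?_, ?_, ?_, ?_⟩ <;> exact funext fun j => xt_add _ _ j

theorem dt_smul {d : ℕ} (c : K) (p : Par L d) : dt (c • p) = Dat.smul c (dt p) := by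
  unfold dt Dat.smul
  simp only [Prod.smul_fst, Prod.smul_snd, Dat.mk.injEq]
  refine ⟨?_, ?_, ?_, ?_, ?_, ?_, ?_, ?_, ?_, ?_, ?_, ?_⟩ <;> exact funext fun j => xt_smul _ _ j

theorem dn1_add (z z' : ∀ j, L (j + 1) →ₗ[K] L j) (j : ℕ) (q : L j) :
    dn1 (fun j => z j + z' j) j q = dn1 z j q + dn1 z' j q := by
  rcases j with _ | j
  · exact (add_zero _).symm
  · rfl

theorem dn1_smul (c : K) (z : ∀ j, L (j + 1) →ₗ[K] L j) (j : ℕ) (q : L j) :
    dn1 (fun j => c • z j) j q = c • dn1 z j q := by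
  rcases j with _ | j
  · exact (smul_zero _).symm
  · rfl

theorem dn2_add (z z' : ∀ j, L (j + 2) →ₗ[K] L j) (j : ℕ) (q : L j) :
    dn2 (fun j => z j + z' j) j q = dn2 z j q + dn2 z' j q := by
  rcases j with _ | _ | j
  · exact (add_zero _).symm
  · exact (add_zero _).symm
  · rfl

theorem dn2_smul (c : K) (z : ∀ j, L (j + 2) →ₗ[K] L j) (j : ℕ) (q : L j) :
    dn2 (fun j => c • z j) j q = c • dn2 z j q := by
  rcases j with _ | _ | j
  · exact (smul_zero _).symm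
  · exact (smul_zero _).symm
  · rfl

variable {A : Module.End K V} {d : ℕ} {a : ℕ → K} {β : K} {X X' : Module.End K V}

theorem Formula.add {D D' : Dat L} (h : Formula A d a β D X) (h' : Formula A d a β D' X') :
    Formula A d a β (D.add D') (X + X') := by
  intro j s hjs q
  rw [LinearMap.add_apply, h j s hjs q, h' j s hjs q]
  simp only [Dat.add, dn1_add, dn2_add, LinearMap.add_apply, Submodule.coe_add, map_add, map_sub,
    map_smul]
  module

theorem Formula.smul (c : K) {D : Dat L} (h : Formula A d a β D X) :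
    Formula A d a β (Dat.smul c D) (c • X) := by
  intro j s hjs q
  rw [LinearMap.smul_apply, h j s hjs q]
  simp only [Dat.smul, dn1_smul, dn2_smul, LinearMap.smul_apply, Submodule.coe_smul, map_add,
    map_sub, map_smul]
  module

end dat

variable {A B : Module.End K V} {d : ℕ} {a b : ℕ → K} {P Q : ℕ → Module.End K V}
  {W X Y : Module.End K V}

theorem formula_ext (h : Sys A B d a P d b Q) {β : K} {D : Dat (LW d P Q)}
    {X X' : Module.End K V} (hX : Formula A d a β D X) (hX' : Formula A d a β D X') : X = X' := by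
  refine Sys.map_ext h X X' fun j s hjs q hq => ?_
  exact (hX j s hjs ⟨q, hq⟩).trans (hX' j s hjs ⟨q, hq⟩).symm

theorem AA_one_ne (h : Sys A B d a P d b Q) (j : ℕ) (hj : 2 * j + 1 ≤ d) : AA d a j 1 ≠ 0 := by
  have h1 : AA d a j 1 = a j - a (d - j) := by simp [AA]
  rw [h1]
  intro h2
  have := h.iA.inj j (by omega) (d - j) (by omega) (sub_eq_zero.mp h2)
  omega

theorem TT_ne (h : Sys A B d a P d b Q) (β : K)
    (hrec : ∀ i, i + 3 ≤ d → a i - a (i + 3) = (β + 1) * (a (i + 1) - a (i + 2)))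
    (n : ℕ) (hn : 1 ≤ n) (hn' : n + 1 ≤ d) : TT β n ≠ 0 := by
  obtain ⟨m, rfl⟩ : ∃ m, n = m + 1 := ⟨n - 1, by omega⟩
  exact TT_ne_zero d a β h.iA.inj hrec m (by omega)

/-- the coordinate maps as linear maps between the `L_j` -/
noncomputable def dm (h : Sys A B d a P d b Q) (X : Module.End K V) (l t j s : ℕ) :
    LW d P Q j →ₗ[K] LW d P Q l :=
  co h l t ∘ₗ X ∘ₗ aeval A (str a j s) ∘ₗ (LW d P Q j).subtype

theorem dm_apply (h : Sys A B d a P d b Q) (X : Module.End K V) (l t j s : ℕ)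
    (q : LW d P Q j) : (dm h X l t j s q : V) = dat h X l t j s q := rfl

/-- the parameters of `X` -/
noncomputable def pm (h : Sys A B d a P d b Q) (β : K) (X : Module.End K V) :
    Dat (LW d P Q) where
  f0 j := dm h X j 0 j 0
  f1 j := (AA d a j 1)⁻¹ • dm h X j 0 j 1 -
    a j • ((AA d a j 1)⁻¹ • (dm h X j 1 j 1 - dm h X j 0 j 0))
  f2 j := (AA d a j 1)⁻¹ • (dm h X j 1 j 1 - dm h X j 0 j 0)
  f3 j := dm h X j 2 j 2 - dm h X j 0 j 0 -
    AA d a j 2 • ((AA d a j 1)⁻¹ • (dm h X j 1 j 1 - dm h X j 0 j 0))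
  g1 j := dm h X (j + 1) 0 j 2 -
    a (j + 1) • (if 2 * j + 3 ≤ d then dm h X (j + 1) 1 j 2 - TT β 2 • dm h X (j + 1) 0 j 1
      else 0) - a (j + 2) • dm h X (j + 1) 0 j 1
  g2 j := if 2 * j + 3 ≤ d then dm h X (j + 1) 1 j 2 - TT β 2 • dm h X (j + 1) 0 j 1 else 0
  g3 j := dm h X (j + 1) 0 j 1
  h1 j := (TT β (d - 1 - 2 * j))⁻¹ • dm h X j 0 (j + 1) 0 -
    a j • (if 2 * j + 3 ≤ d then (TT β (d - 2 - 2 * j))⁻¹ •
        (TT β (d - 2 - 2 * j) • dm h X j 2 (j + 1) 1 -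
          TT β (d - 3 - 2 * j) • dm h X j 1 (j + 1) 0)
      else dm h X j 1 (j + 1) 0) -
    a (j + 1) • (if 2 * j + 3 ≤ d then (TT β (d - 2 - 2 * j))⁻¹ •
        (TT β (d - 2 - 2 * j) • dm h X j 1 (j + 1) 0 -
          TT β (d - 1 - 2 * j) • dm h X j 2 (j + 1) 1)
      else 0)
  h2 j := if 2 * j + 3 ≤ d then (TT β (d - 2 - 2 * j))⁻¹ •
        (TT β (d - 2 - 2 * j) • dm h X j 2 (j + 1) 1 -
          TT β (d - 3 - 2 * j) • dm h X j 1 (j + 1) 0)
      else dm h X j 1 (j + 1) 0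
  h3 j := if 2 * j + 3 ≤ d then (TT β (d - 2 - 2 * j))⁻¹ •
        (TT β (d - 2 - 2 * j) • dm h X j 1 (j + 1) 0 -
          TT β (d - 1 - 2 * j) • dm h X j 2 (j + 1) 1)
      else 0
  k j := dm h X (j + 2) 0 j 2
  l j := (TT β (d - 3 - 2 * j))⁻¹ • dm h X j 2 (j + 2) 0

/-- restriction of the families of parameters -/
def res {L : ℕ → Submodule K V} (d : ℕ) (D : Dat L) : Par L d :=
  (fun j => D.f0 j, fun j => D.f1 j, fun j => D.f2 j, fun j => D.f3 j, fun j => D.g1 j,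
    fun j => D.g2 j, fun j => D.g3 j, fun j => D.h1 j, fun j => D.h2 j, fun j => D.h3 j,
    fun j => D.k j, fun j => D.l j)

theorem dat_sub (h : Sys A B d a P d b Q) (X X' : Module.End K V) (l t j s : ℕ) (q : V) :
    dat h (X - X') l t j s q = dat h X l t j s q - dat h X' l t j s q := by
  unfold dat
  rw [LinearMap.sub_apply, map_sub, Submodule.coe_sub]

theorem solve2 {t1 t0 tm : K} (h0 : t0 ≠ 0) (hI : t0 ^ 2 - t0 = t1 * tm) (x0 x1 : V) :
    x0 - (t1 • (t0⁻¹ • (t0 • x1 - tm • x0)) + t0 • (t0⁻¹ • (t0 • x0 - t1 • x1))) = 0 ∧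
    x1 - (t0 • (t0⁻¹ • (t0 • x1 - tm • x0)) + tm • (t0⁻¹ • (t0 • x0 - t1 • x1))) = 0 := by
  constructor
  · match_scalars
    · field_simp
      linear_combination -hI
    · field_simp
      ring
  · match_scalars
    · field_simp
      linear_combination -hI
    · field_simp
      ring

theorem exhaust (h : Sys A B d a P d b Q) (β : K)
    (hrec : ∀ i, i + 3 ≤ d → a i - a (i + 3) = (β + 1) * (a (i + 1) - a (i + 2)))
    (hX : SF d P Q X) : ∃ p : Par (LW d P Q) d, Formula A d a β (dt p) X := by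
  set D := pm h β X with hD
  obtain ⟨X', hXS', hX'⟩ := exists_X h β hrec (dt (res d D))
  have hV := val_of_formula h β _ hX'
  have T0 : TT β 0 = 0 := rfl
  have T1 : TT β 1 = 1 := rfl
  -- the values of the parameters in range
  have ef0 : ∀ j, 2 * j ≤ d → (dt (res d D)).f0 j = D.f0 j :=
    fun j hj => xt_res (L := LW d P Q) (L' := LW d P Q) D.f0 j (by omega)
  have ef1 : ∀ j, 2 * j + 1 ≤ d → (dt (res d D)).f1 j = D.f1 j :=
    fun j hj => xt_res (L := LW d P Q) (L' := LW d P Q) D.f1 j (by omega)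
  have ef2 : ∀ j, 2 * j + 1 ≤ d → (dt (res d D)).f2 j = D.f2 j :=
    fun j hj => xt_res (L := LW d P Q) (L' := LW d P Q) D.f2 j (by omega)
  have ef3 : ∀ j, 2 * j + 2 ≤ d → (dt (res d D)).f3 j = D.f3 j :=
    fun j hj => xt_res (L := LW d P Q) (L' := LW d P Q) D.f3 j (by omega)
  have eg1 : ∀ j, 2 * j + 2 ≤ d → (dt (res d D)).g1 j = D.g1 j :=
    fun j hj => xt_res (L' := fun j => LW d P Q (j + 1)) D.g1 j (by omega)
  have eg2 : ∀ j, 2 * j + 2 ≤ d → (dt (res d D)).g2 j = D.g2 j := by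
    intro j hj
    by_cases hd : 2 * j + 3 ≤ d
    · exact xt_res (L' := fun j => LW d P Q (j + 1)) D.g2 j (by omega)
    · have h1 : (dt (res d D)).g2 j = 0 :=
        xt_ge (L' := fun j => LW d P Q (j + 1)) (res d D).2.2.2.2.2.1 j (by omega)
      have h2 : D.g2 j = 0 := by
        rw [hD]
        show (if 2 * j + 3 ≤ d then _ else _) = _
        rw [if_neg hd]
      rw [h1, h2]
  have eg3 : ∀ j, 2 * j + 2 ≤ d → (dt (res d D)).g3 j = D.g3 j :=
    fun j hj => xt_res (L' := fun j => LW d P Q (j + 1)) D.g3 j (by omega)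
  have eh1 : ∀ j, 2 * j + 2 ≤ d → (dt (res d D)).h1 j = D.h1 j :=
    fun j hj => xt_res (L := fun j => LW d P Q (j + 1)) D.h1 j (by omega)
  have eh2 : ∀ j, 2 * j + 2 ≤ d → (dt (res d D)).h2 j = D.h2 j :=
    fun j hj => xt_res (L := fun j => LW d P Q (j + 1)) D.h2 j (by omega)
  have eh3 : ∀ j, 2 * j + 2 ≤ d → (dt (res d D)).h3 j = D.h3 j := by
    intro j hj
    by_cases hd : 2 * j + 3 ≤ d
    · exact xt_res (L := fun j => LW d P Q (j + 1)) D.h3 j (by omega)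
    · have h1 : (dt (res d D)).h3 j = 0 :=
        xt_ge (L := fun j => LW d P Q (j + 1)) (res d D).2.2.2.2.2.2.2.2.2.1 j (by omega)
      have h2 : D.h3 j = 0 := by
        rw [hD]
        show (if 2 * j + 3 ≤ d then _ else _) = _
        rw [if_neg hd]
      rw [h1, h2]
  have ek : ∀ j, 2 * j + 4 ≤ d → (dt (res d D)).k j = D.k j :=
    fun j hj => xt_res (L' := fun j => LW d P Q (j + 2)) D.k j (by omega)
  have el : ∀ j, 2 * j + 4 ≤ d → (dt (res d D)).l j = D.l j :=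
    fun j hj => xt_res (L := fun j => LW d P Q (j + 2)) D.l j (by omega)
  have hTI : ∀ j, 2 * j + 3 ≤ d → TT β (d - 2 - 2 * j) ^ 2 - TT β (d - 2 - 2 * j) =
      TT β (d - 1 - 2 * j) * TT β (d - 3 - 2 * j) := by
    intro j hj
    have hI := TT_I β (d - 3 - 2 * j)
    rwa [show d - 3 - 2 * j + 1 = d - 2 - 2 * j by omega,
      show d - 3 - 2 * j + 2 = d - 1 - 2 * j by omega] at hI
  have hZ : Zero h (X - X') := by
    refine ⟨?_, ?_, ?_, ?_, ?_, ?_, ?_, ?_, ?_, ?_, ?_, ?_⟩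
    · intro j hj q hq
      rw [dat_sub, hV.f0 j hj ⟨q, hq⟩, ef0 j hj]
      exact sub_self _
    · intro j hj q hq
      rw [dat_sub, hV.f1 j hj ⟨q, hq⟩, ef1 j hj, ef2 j hj]
      simp only [hD, pm, LinearMap.sub_apply, LinearMap.smul_apply, Submodule.coe_sub,
        Submodule.coe_smul, dm_apply, sub_add_cancel]
      rw [smul_smul, mul_inv_cancel₀ (AA_one_ne h j hj), one_smul, sub_self]
    · intro j hj q hq
      rw [dat_sub, hV.f2 j hj ⟨q, hq⟩, ef0 j (by omega), ef2 j hj]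
      simp only [hD, pm, LinearMap.sub_apply, LinearMap.smul_apply, Submodule.coe_sub,
        Submodule.coe_smul, dm_apply]
      rw [smul_smul, mul_inv_cancel₀ (AA_one_ne h j hj), one_smul]
      abel
    · intro j hj q hq
      rw [dat_sub, hV.f3 j hj ⟨q, hq⟩, ef0 j (by omega), ef2 j (by omega), ef3 j hj]
      simp only [hD, pm, LinearMap.sub_apply, LinearMap.smul_apply, Submodule.coe_sub,
        Submodule.coe_smul, dm_apply]
      abel
    · intro j hj q hq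
      rw [dat_sub, hV.g1 j hj ⟨q, hq⟩, eg1 j hj, eg2 j hj, eg3 j hj]
      simp only [hD, pm, LinearMap.sub_apply, LinearMap.smul_apply, Submodule.coe_sub,
        Submodule.coe_smul, dm_apply]
      abel
    · intro j hj q hq
      rw [dat_sub, hV.g2 j hj ⟨q, hq⟩, eg2 j (by omega), eg3 j (by omega)]
      simp only [hD, pm, if_pos hj, LinearMap.sub_apply, LinearMap.smul_apply, Submodule.coe_sub,
        Submodule.coe_smul, dm_apply]
      abel
    · intro j hj q hq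
      rw [dat_sub, hV.g3 j hj ⟨q, hq⟩, eg3 j hj]
      exact sub_self _
    · intro j hj q hq
      rw [dat_sub, hV.h1 j hj ⟨q, hq⟩, eh1 j hj, eh2 j hj, eh3 j hj]
      simp only [hD, pm, LinearMap.sub_apply, LinearMap.smul_apply, Submodule.coe_sub,
        Submodule.coe_smul, dm_apply]
      have e : ∀ x u v : V, x - u - v + u + v = x := fun x u v => by abel
      rw [e, smul_smul, mul_inv_cancel₀ (TT_ne h β hrec _ (by omega) (by omega)), one_smul,
        sub_self]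
    · intro j hj q hq
      rw [dat_sub, hV.h2 j hj ⟨q, hq⟩, eh2 j hj, eh3 j hj]
      by_cases hd : 2 * j + 3 ≤ d
      · simp only [hD, pm, if_pos hd, LinearMap.sub_apply, LinearMap.smul_apply,
          Submodule.coe_sub, Submodule.coe_smul, dm_apply]
        exact (solve2 (TT_ne h β hrec (d - 2 - 2 * j) (by omega) (by omega)) (hTI j hd) _ _).1
      · simp only [hD, pm, if_neg hd, dm_apply]
        rw [show d - 1 - 2 * j = 1 by omega, show d - 2 - 2 * j = 0 by omega, T0, T1, one_smul,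
          zero_smul, add_zero, sub_self]
    · intro j hj q hq
      rw [dat_sub, hV.h3 j hj ⟨q, hq⟩, eh2 j (by omega), eh3 j (by omega)]
      simp only [hD, pm, if_pos hj, LinearMap.sub_apply, LinearMap.smul_apply,
        Submodule.coe_sub, Submodule.coe_smul, dm_apply]
      exact (solve2 (TT_ne h β hrec (d - 2 - 2 * j) (by omega) (by omega)) (hTI j hj) _ _).2
    · intro j hj q hq
      rw [dat_sub, hV.k j hj ⟨q, hq⟩, ek j hj]
      exact sub_self _
    · intro j hj q hq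
      rw [dat_sub, hV.l j hj ⟨q, hq⟩, el j hj]
      simp only [hD, pm, LinearMap.smul_apply, Submodule.coe_smul, dm_apply]
      rw [smul_smul, mul_inv_cancel₀ (TT_ne h β hrec _ (by omega) (by omega)), one_smul, sub_self]
  have h0 := Zero.eq_zero h (hX.sub hXS') hZ
  rw [sub_eq_zero] at h0
  exact ⟨res d D, h0 ▸ hX'⟩

end Pool.Agent.Helper40.TDF
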