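import Pool.Agent.Helper40.TDF.Inj

/-! The formula, and the maps it defines. -/

set_option autoImplicit false

namespace Pool.Agent.Helper40.TDF

open Polynomial Module Pool.Agent.Helper9.TD Pool.Agent.R841.TD

variable {K : Type*} [Field K] {V : Type*} [AddCommGroup V] [Module K V]

/-- `h_{j-1} : L_j → V`, to be read as `0` for `j = 0` -/
def dn1 {L : ℕ → Submodule K V} (h : ∀ j, L (j + 1) →ₗ[K] L j) : ∀ j, L j →ₗ[K] V
  | 0 => 0
  | (j + 1) => (L j).subtype ∘ₗ h j

/-- `l_{j-2} : L_j → V`, to be read as `0` for `j ≤ 1` -/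
def dn2 {L : ℕ → Submodule K V} (l : ∀ j, L (j + 2) →ₗ[K] L j) : ∀ j, L j →ₗ[K] V
  | 0 => 0
  | 1 => 0
  | (j + 2) => (L j).subtype ∘ₗ l j

/-- The formula for `X` on the vectors `τ_{j,s} q`, `q ∈ L_j`, `2 j + s ≤ d`. -/
def Formula (A : Module.End K V) (d : ℕ) (a : ℕ → K) (β : K) {L : ℕ → Submodule K V}
    (D : Dat L) (X : Module.End K V) : Prop :=
  ∀ j s, 2 * j + s ≤ d → ∀ q : L j, X (tau A a j s q) =
    tau A a j s (D.f0 j q) +
    AA d a j s • tau A a j (s - 1) ((D.f1 j q : V) + A (D.f2 j q)) +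
    TT β (s - 1) • tau A a j (s - 1) (A (D.f3 j q) - a (d - j) • (D.f3 j q : V)) +
    TT β (s - 1) • tau A a (j + 1) (s - 2)
      ((D.g1 j q : V) + A (D.g2 j q) + a (j + s) • (D.g3 j q : V)) +
    TT β s • tau A a (j + 1) (s - 1) (D.g3 j q) +
    TT β (d + 1 - 2 * j - s) • tau A a (j - 1) s
      (dn1 D.h1 j q + A (dn1 D.h2 j q) + a (j + s) • dn1 D.h3 j q) +
    TT β (d - 2 * j - s) • tau A a (j - 1) (s + 1) (dn1 D.h3 j q) +
    TT β (s - 1) • tau A a (j + 1) (s - 2) (D.k j q) +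
    TT β (d + 1 - 2 * j - s) • tau A a (j - 2) (s + 1)
      (A (dn2 D.l j q) - a (d + 2 - j) • dn2 D.l j q)

variable {A B : Module.End K V} {d : ℕ} {a b : ℕ → K} {P Q : ℕ → Module.End K V}
  {W X Y : Module.End K V}

theorem dn1_mem (z : ∀ j, LW d P Q (j + 1) →ₗ[K] LW d P Q j) (j : ℕ) (q : LW d P Q j) :
    dn1 z j q ∈ LW d P Q (j - 1) := by
  rcases j with _ | j
  · exact Submodule.zero_mem _
  · exact (z j q).2

theorem dn2_mem (z : ∀ j, LW d P Q (j + 2) →ₗ[K] LW d P Q j) (j : ℕ) (q : LW d P Q j) :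
    dn2 z j q ∈ LW d P Q (j - 2) := by
  rcases j with _ | _ | j
  · exact Submodule.zero_mem _
  · exact Submodule.zero_mem _
  · exact (z j q).2

/-- the value of the maps of the second kind -/
noncomputable def Wv (A : Module.End K V) (d : ℕ) (a : ℕ → K) (β : K) (j s : ℕ)
    (x y z w : V) : V :=
  aeval A (str a j s) x + TT β (s - 1) • aeval A (str a j (s - 1)) (A y - a (d - j) • y) +
    TT β (s - 1) • aeval A (str a (j + 1) (s - 2)) z +
    TT β (d + 1 - 2 * j - s) • aeval A (str a (j - 2) (s + 1)) (A w - a (d + 2 - j) • w)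

theorem Wv_mem (h : Sys A B d a P d b Q) (β : K) (j s : ℕ) (x y z w : V)
    (hx : x ∈ LW d P Q j) (hy : y ∈ LW d P Q j) (hz : z ∈ LW d P Q (j + 2))
    (hw : w ∈ LW d P Q (j - 2)) (hw0 : j < 2 → w = 0) :
    Wv A d a β j s x y z w ∈ NN d P d Q (j + s) (j + s - 1) := by
  have hAc : ∀ i : ℕ, ∀ c : K, ∀ v ∈ NN d P d Q i i, A v - c • v ∈ NN d P d Q (i + 1) i :=
    fun i c v hv => Submodule.sub_mem _ (Sys.A_mem h i i v hv)
      (Submodule.smul_mem _ _ (NN_mono (Nat.le_succ i) le_rfl hv))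
  have hT : s ≤ 1 → TT β (s - 1) = 0 := by
    intro hs
    rw [show s - 1 = 0 by omega]
    rfl
  refine Submodule.add_mem _ (Submodule.add_mem _ (Submodule.add_mem _ ?_ ?_) ?_) ?_
  · exact NN_mono le_rfl (Nat.sub_le _ _) (Sys.aeval_mem h j s x (LW_NN hx))
  · by_cases hs : s ≤ 1
    · rw [hT hs, zero_smul]; exact Submodule.zero_mem _
    · refine Submodule.smul_mem _ _ ?_
      have h1 := Sys.aeval_mem' h (j + 1) j (s - 1) _ (hAc j (a (d - j)) y (LW_NN hy))
      exact NN_mono (by omega) (by omega) h1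
  · by_cases hs : s ≤ 1
    · rw [hT hs, zero_smul]; exact Submodule.zero_mem _
    · refine Submodule.smul_mem _ _ ?_
      have h1 := Sys.aeval_mem' h (j + 2) (j + 1) (s - 2) z
        (NN_mono le_rfl (Nat.le_succ _) (LW_NN hz))
      exact NN_mono (by omega) (by omega) h1
  · by_cases hj : j < 2
    · rw [hw0 hj]; simp
    · refine Submodule.smul_mem _ _ ?_
      have h1 := Sys.aeval_mem' h (j - 2 + 1) (j - 2) (s + 1) _
        (hAc (j - 2) (a (d + 2 - j)) w (LW_NN hw))
      exact NN_mono (by omega) (by omega) h1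

/-- the formula on the reversed strings -/
theorem W_rev (β : K)
    (hrec : ∀ i, i + 3 ≤ d → a i - a (i + 3) = (β + 1) * (a (i + 1) - a (i + 2)))
    (j : ℕ) (q x y z w : V) (hw0 : j < 2 → w = 0)
    (hW : ∀ s, 2 * j + s ≤ d → W (aeval A (str a j s) q) = Wv A d a β j s x y z w)
    (s : ℕ) (hs : 2 * j + s ≤ d) :
    W (aeval A (str (fun i => a (d - i)) j s) q) =
      Wv A d (fun i => a (d - i)) β j s x y z w := by
  obtain ⟨D, hD⟩ := poly_D d a β hrec
  have hT0 : TT β 0 = 0 := rfl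
  -- the operator of `w`
  obtain ⟨E, hE⟩ : ∃ E : K[X] →ₗ[K] K[X], ∀ s, 2 * j + s ≤ d →
      (TT β (d + 1 - 2 * j - s) • aeval A (str a (j - 2) (s + 1)) (A w - a (d + 2 - j) • w) =
        aeval A (E (str a j s)) w ∧
      TT β (d + 1 - 2 * j - s) • aeval A (str (fun i => a (d - i)) (j - 2) (s + 1))
        (A w - a (d - (d + 2 - j)) • w) = aeval A (E (str (fun i => a (d - i)) j s)) w) := by
    by_cases hj : j < 2
    · refine ⟨0, fun s _ => ?_⟩
      rw [hw0 hj]
      simp
    · obtain ⟨i, rfl⟩ : ∃ i, j = i + 2 := ⟨j - 2, by omega⟩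
      obtain ⟨E, hE⟩ := poly_E d a β hrec (i + 1) (by omega)
      refine ⟨LinearMap.mulLeft K ((Polynomial.X - C (a i)) * (Polynomial.X - C (a (d - i)))) ∘ₗ E,
        fun s hs => ?_⟩
      rw [LinearMap.comp_apply, LinearMap.comp_apply, LinearMap.mulLeft_apply,
        LinearMap.mulLeft_apply, (hE s hs).1, (hE s hs).2, Nat.add_sub_cancel,
        show d + 2 - (i + 2) = d - i by omega, show d - (d - i) = i by omega,
        show d - 1 - 2 * (i + 1) - s = d + 1 - 2 * (i + 2) - s by omega]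
      have e1 : (Polynomial.X - C (a i)) * (Polynomial.X - C (a (d - i))) *
          (C (TT β (d + 1 - 2 * (i + 2) - s)) * str a (i + 1) s) =
          C (TT β (d + 1 - 2 * (i + 2) - s)) *
            (str a i (s + 1) * (Polynomial.X - C (a (d - i)))) := by
        rw [str_succ']; ring
      have e2 : (Polynomial.X - C (a i)) * (Polynomial.X - C (a (d - i))) *
          (C (TT β (d + 1 - 2 * (i + 2) - s)) * str (fun i => a (d - i)) (i + 1) s) =
          C (TT β (d + 1 - 2 * (i + 2) - s)) *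
            (str (fun i => a (d - i)) i (s + 1) * (Polynomial.X - C (a i))) := by
        rw [str_succ']; ring
      rw [e1, e2]
      simp only [map_mul, Module.End.mul_apply, map_sub, aeval_X, aeval_C, LinearMap.sub_apply,
        Module.algebraMap_end_apply, smul_sub, and_self]
  have hy : ∀ s, (TT β (s - 1) • aeval A (str a j (s - 1)) (A y - a (d - j) • y) =
      aeval A ((Polynomial.X - C (a j)) * (Polynomial.X - C (a (d - j))) *
        (C (TT β (s - 1)) * str a (j + 1) (s - 2))) y ∧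
      (j ≤ d → TT β (s - 1) • aeval A (str (fun i => a (d - i)) j (s - 1))
        (A y - a (d - (d - j)) • y) =
      aeval A ((Polynomial.X - C (a j)) * (Polynomial.X - C (a (d - j))) *
        (C (TT β (s - 1)) * str (fun i => a (d - i)) (j + 1) (s - 2))) y)) := by
    intro s
    by_cases hs : s ≤ 1
    · rw [show s - 1 = 0 by omega, hT0]
      simp
    · obtain ⟨t, rfl⟩ : ∃ t, s = t + 2 := ⟨s - 2, by omega⟩
      rw [show t + 2 - 1 = t + 1 by omega, show t + 2 - 2 = t by omega]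
      have e1 : (Polynomial.X - C (a j)) * (Polynomial.X - C (a (d - j))) *
          (C (TT β (t + 1)) * str a (j + 1) t) =
          C (TT β (t + 1)) * (str a j (t + 1) * (Polynomial.X - C (a (d - j)))) := by
        rw [str_succ']; ring
      have e2 : (Polynomial.X - C (a j)) * (Polynomial.X - C (a (d - j))) *
          (C (TT β (t + 1)) * str (fun i => a (d - i)) (j + 1) t) =
          C (TT β (t + 1)) * (str (fun i => a (d - i)) j (t + 1) * (Polynomial.X - C (a j))) := by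
        rw [str_succ']; ring
      rw [e1, e2]
      refine ⟨?_, fun hjd => ?_⟩
      · simp only [map_mul, Module.End.mul_apply, map_sub, aeval_X, aeval_C, LinearMap.sub_apply,
          Module.algebraMap_end_apply, smul_sub]
      · rw [Nat.sub_sub_self hjd]
        simp only [map_mul, Module.End.mul_apply, map_sub, aeval_X, aeval_C, LinearMap.sub_apply,
          Module.algebraMap_end_apply, smul_sub]
  -- the difference of the two linear maps
  let ev : V → K[X] →ₗ[K] V := fun v => (LinearMap.applyₗ v) ∘ₗ (aeval A).toLinearMap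
  let F : K[X] →ₗ[K] K[X] :=
    LinearMap.mulLeft K ((Polynomial.X - C (a j)) * (Polynomial.X - C (a (d - j)))) ∘ₗ D
  let L : K[X] →ₗ[K] V := W ∘ₗ ev q - ev x - ev y ∘ₗ F - ev z ∘ₗ D - ev w ∘ₗ E
  have hL : ∀ p, L p = W (aeval A p q) - aeval A p x -
      aeval A ((Polynomial.X - C (a j)) * (Polynomial.X - C (a (d - j))) * D p) y -
      aeval A (D p) z - aeval A (E p) w := fun p => rfl
  have h0 : ∀ t ≤ d - 2 * j, L (str a j t) = 0 := by
    intro t ht
    have hz : aeval A (C (TT β (t - 1)) * str a (j + 1) (t - 2)) z =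
        TT β (t - 1) • aeval A (str a (j + 1) (t - 2)) z := by
      rw [map_mul, Module.End.mul_apply, aeval_C, Module.algebraMap_end_apply]
    rw [hL, hW t (by omega), (hD j t (by omega)).1, ← (hE t (by omega)).1, ← (hy t).1, hz, Wv]
    abel
  have h1 := lin_zero a j L (d - 2 * j) h0 (str (fun i => a (d - i)) j s)
    (by rw [str_natDegree]; omega)
  have hz : aeval A (C (TT β (s - 1)) * str (fun i => a (d - i)) (j + 1) (s - 2)) z =
      TT β (s - 1) • aeval A (str (fun i => a (d - i)) (j + 1) (s - 2)) z := by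
    rw [map_mul, Module.End.mul_apply, aeval_C, Module.algebraMap_end_apply]
  rw [hL, (hD j s hs).2, ← (hE s hs).2, ← (hy s).2 (by omega), hz, sub_sub, sub_sub, sub_sub,
    sub_eq_zero] at h1
  rw [h1, Wv]
  abel

theorem W_SF (h : Sys A B d a P d b Q) (β : K)
    (hrec : ∀ i, i + 3 ≤ d → a i - a (i + 3) = (β + 1) * (a (i + 1) - a (i + 2)))
    (x y z w : ℕ → V → V)
    (hx : ∀ j, ∀ q ∈ LW d P Q j, x j q ∈ LW d P Q j)
    (hy : ∀ j, ∀ q ∈ LW d P Q j, y j q ∈ LW d P Q j)
    (hz : ∀ j, ∀ q ∈ LW d P Q j, z j q ∈ LW d P Q (j + 2))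
    (hw : ∀ j, ∀ q ∈ LW d P Q j, w j q ∈ LW d P Q (j - 2))
    (hw0 : ∀ j, ∀ q ∈ LW d P Q j, j < 2 → w j q = 0)
    (hW : ∀ j s, 2 * j + s ≤ d → ∀ q ∈ LW d P Q j, W (aeval A (str a j s) q) =
      Wv A d a β j s (x j q) (y j q) (z j q) (w j q)) : SF d P Q W := by
  refine Sys.SF_of_UF h (Sys.UF_of_strings h fun j s hjs q hq => ?_)
    (Sys.UF_of_strings h.revA fun j s hjs q hq => ?_)
  · rw [hW j s hjs q hq]
    exact Wv_mem h β j s _ _ _ _ (hx j q hq) (hy j q hq) (hz j q hq) (hw j q hq) (hw0 j q hq)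
  · rw [LW_rev] at hq
    rw [W_rev β hrec j q _ _ _ _ (hw0 j q hq) (fun s hs => hW j s hs q hq) s hjs]
    refine Wv_mem h.revA β j s _ _ _ _ ?_ ?_ ?_ ?_ (hw0 j q hq)
    · rw [LW_rev]; exact hx j q hq
    · rw [LW_rev]; exact hy j q hq
    · rw [LW_rev]; exact hz j q hq
    · rw [LW_rev]; exact hw j q hq

end Pool.Agent.Helper40.TDF
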