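import Pool.Agent.Helper40.TDF.Coord

/-! A map satisfying the two conditions is determined by few coordinates. -/

set_option autoImplicit false

namespace Pool.Agent.Helper40.TDF

open Polynomial Module Pool.Agent.Helper9.TD Pool.Agent.R841.TD

variable {K : Type*} [Field K] {V : Type*} [AddCommGroup V] [Module K V]

variable {A B : Module.End K V} {d : ℕ} {a b : ℕ → K} {P Q : ℕ → Module.End K V}
  {X Y : Module.End K V}

/-- the value at `a_k` depends only on the values at the neighbours -/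
theorem tri_eval (h : Sys A B d a P d b Q) (hX : SF d P Q X) (j : ℕ) (q : V)
    (hq : q ∈ LW d P Q j) (k : ℕ) (hk : k ≤ d) (p : K[X])
    (hp : ∀ i, j ≤ i → i + j ≤ d → k ≤ i + 1 → i ≤ k + 1 → p.eval (a i) = 0) :
    P k (X (aeval A p q)) = 0 := by
  rw [← h.iA.sum (aeval A p q), map_sum, map_sum]
  refine Finset.sum_eq_zero fun i hi => ?_
  have hi' : i ≤ d := by simpa [Nat.lt_succ_iff] using hi
  rw [P_aeval h.iA i hi', map_smul, map_smul]
  by_cases h1 : i + 1 < k ∨ k + 1 < i
  · rw [hX.tri i hi' k hk h1, smul_zero]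
  · by_cases h2 : j ≤ i
    · by_cases h3 : i + j ≤ d
      · rw [hp i h2 h3 (by omega) (by omega), zero_smul]
      · rw [LW_P hq i hi' (by omega), map_zero, map_zero, smul_zero]
    · rw [(mem_LW.mp hq).2.1 i hi' (by omega), map_zero, map_zero, smul_zero]

theorem vanish (h : Sys A B d a P d b Q) (hX : SF d P Q X) (j : ℕ) (q : V)
    (hq : q ∈ LW d P Q j) (l m k : ℕ) (hk : k ≤ d)
    (h0 : ∀ s < m, 2 * j + s ≤ d → pr h l (X (aeval A (str a j s) q)) = 0)
    (hm : m = 3 ∨ d + 2 ≤ k + m + j) (p : K[X]) : P k (pr h l (X (aeval A p q))) = 0 := by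
  classical
  set S := (Finset.range (d + 1)).filter (fun i => j ≤ i ∧ i + j ≤ d ∧ k ≤ i + 1 ∧ i ≤ k + 1)
    with hS
  have hSmem : ∀ i, i ∈ S ↔ j ≤ i ∧ i + j ≤ d ∧ k ≤ i + 1 ∧ i ≤ k + 1 := by
    intro i
    rw [hS, Finset.mem_filter, Finset.mem_range]
    omega
  have hcard1 : S.card ≤ m := by
    rcases hm with hm | hm
    · have h1 : S ⊆ Finset.Icc (k - 1) (k + 1) := by
        intro i hi
        rw [hSmem] at hi
        rw [Finset.mem_Icc]
        omega
      have h2 := Finset.card_le_card h1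
      rw [Nat.card_Icc] at h2
      omega
    · have h1 : S ⊆ Finset.Ico (k - 1) (d + 1 - j) := by
        intro i hi
        rw [hSmem] at hi
        rw [Finset.mem_Ico]
        omega
      have h2 := Finset.card_le_card h1
      rw [Nat.card_Ico] at h2
      omega
  have hcard2 : S.card ≤ d + 1 - 2 * j := by
    have h1 : S ⊆ Finset.Ico j (d + 1 - j) := by
      intro i hi
      rw [hSmem] at hi
      rw [Finset.mem_Ico]
      omega
    have h2 := Finset.card_le_card h1
    rw [Nat.card_Ico] at h2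
    omega
  set g : K[X] := ∏ i ∈ S, (Polynomial.X - C (a i)) with hg
  have hgm : g.Monic := monic_prod_of_monic _ _ fun _ _ => monic_X_sub_C _
  have hgd : g.natDegree = S.card := by
    rw [hg, natDegree_prod_of_monic _ _ fun _ _ => monic_X_sub_C _]
    simp
  have hdiff : P k (X (aeval A (p - p %ₘ g) q)) = 0 := by
    refine tri_eval h hX j q hq k hk _ fun i h1 h2 h3 h4 => ?_
    have h5 : p - p %ₘ g = g * (p /ₘ g) := by
      have := modByMonic_add_div p g
      linear_combination -this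
    rw [h5, eval_mul, hg, eval_prod, Finset.prod_eq_zero ((hSmem i).mpr ⟨h1, h2, h3, h4⟩),
      zero_mul]
    simp
  have hrem : pr h l (X (aeval A (p %ₘ g) q)) = 0 := by
    rcases Nat.eq_zero_or_pos S.card with hc | hc
    · have h1 : g = 1 := by rw [hg, Finset.card_eq_zero.mp hc, Finset.prod_empty]
      rw [h1, modByMonic_one]
      simp
    · let L : K[X] →ₗ[K] V := pr h l ∘ₗ X ∘ₗ (LinearMap.applyₗ q) ∘ₗ (aeval A).toLinearMap
      have hL : ∀ p, L p = pr h l (X (aeval A p q)) := fun p => rfl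
      have h1 : (p %ₘ g).natDegree ≤ S.card - 1 := by
        have h2 := natDegree_modByMonic_lt p hgm (by
          intro h3
          rw [h3, natDegree_one] at hgd
          omega)
        omega
      have h2 := lin_zero a j L (S.card - 1) (fun s hs => by
        rw [hL]
        exact h0 s (by omega) (by omega)) _ h1
      rw [← hL]
      exact h2
  rw [pr_P h l k hk]
  have h1 : aeval A p q = aeval A (p - p %ₘ g) q + aeval A (p %ₘ g) q := by
    rw [← LinearMap.add_apply, ← map_add, sub_add_cancel]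
  rw [h1, map_add, map_add, hdiff, zero_add, ← pr_P h l k hk, hrem, map_zero]

/-- the coordinate `(l, t)` of `X τ_{j,s} q` -/
noncomputable def dat (h : Sys A B d a P d b Q) (X : Module.End K V) (l t j s : ℕ) (q : V) : V :=
  (co h l t (X (aeval A (str a j s) q)) : V)

/-- the leading coordinates vanish -/
structure Zero (h : Sys A B d a P d b Q) (X : Module.End K V) : Prop where
  f0 : ∀ j, 2 * j ≤ d → ∀ q ∈ LW d P Q j, dat h X j 0 j 0 q = 0
  f1 : ∀ j, 2 * j + 1 ≤ d → ∀ q ∈ LW d P Q j, dat h X j 0 j 1 q = 0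
  f2 : ∀ j, 2 * j + 1 ≤ d → ∀ q ∈ LW d P Q j, dat h X j 1 j 1 q = 0
  f3 : ∀ j, 2 * j + 2 ≤ d → ∀ q ∈ LW d P Q j, dat h X j 2 j 2 q = 0
  g1 : ∀ j, 2 * j + 2 ≤ d → ∀ q ∈ LW d P Q j, dat h X (j + 1) 0 j 2 q = 0
  g2 : ∀ j, 2 * j + 3 ≤ d → ∀ q ∈ LW d P Q j, dat h X (j + 1) 1 j 2 q = 0
  g3 : ∀ j, 2 * j + 2 ≤ d → ∀ q ∈ LW d P Q j, dat h X (j + 1) 0 j 1 q = 0
  h1 : ∀ j, 2 * j + 2 ≤ d → ∀ q ∈ LW d P Q (j + 1), dat h X j 0 (j + 1) 0 q = 0
  h2 : ∀ j, 2 * j + 2 ≤ d → ∀ q ∈ LW d P Q (j + 1), dat h X j 1 (j + 1) 0 q = 0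
  h3 : ∀ j, 2 * j + 3 ≤ d → ∀ q ∈ LW d P Q (j + 1), dat h X j 2 (j + 1) 1 q = 0
  k : ∀ j, 2 * j + 4 ≤ d → ∀ q ∈ LW d P Q j, dat h X (j + 2) 0 j 2 q = 0
  l : ∀ j, 2 * j + 4 ≤ d → ∀ q ∈ LW d P Q (j + 2), dat h X j 2 (j + 2) 0 q = 0

theorem SF.F (iB : Idem B d b Q) (hX : SF d P Q X) (i : ℕ) (v : V)
    (hv : ∀ k ≤ d, i < k → Q k v = 0) (k : ℕ) (hk : k ≤ d) (hik : i < k) : Q k (X v) = 0 := by
  rw [← iB.sum v, map_sum, map_sum]
  refine Finset.sum_eq_zero fun l hl => ?_
  have hl' : l ≤ d := by simpa [Nat.lt_succ_iff] using hl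
  by_cases h : i < l
  · rw [hv l hl' h, map_zero, map_zero]
  · exact hX.low l hl' k hk (by omega) v

theorem SF.NN (h : Sys A B d a P d b Q) (hX : SF d P Q X) (i : ℕ) (v : V)
    (hv : v ∈ NN d P d Q i i) : X v ∈ NN d P d Q i (i - 1) :=
  mem_NN.mpr ⟨fun k hk hik => hX.F h.iB i v (mem_NN.mp hv).1 k hk hik,
    fun k hk hki => down_lemma h.iA hX.tri i v (mem_NN.mp hv).2 k hk (by omega)⟩

theorem Zero.comp (h : Sys A B d a P d b Q) (hX : SF d P Q X) (hZ : Zero h X) (j : ℕ) (q : V)
    (hq : q ∈ LW d P Q j) (l : ℕ) : ∀ s, s ≤ 2 → 2 * j + s ≤ d →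
      pr h l (X (aeval A (str a j s) q)) = 0 := by
  intro s
  induction s using Nat.strong_induction_on with
  | _ s ih =>
  intro hs hjs
  -- the form of the component
  have hN : aeval A (str a j s) q ∈ NN d P d Q (j + s) (j + s) :=
    Sys.aeval_mem h j s q (LW_NN hq)
  obtain ⟨x, hx, y, hy, he, hx0, hy0, hcx, hcy⟩ :=
    comp2 h (j + s) (by omega) _ (SF.NN h hX (j + s) _ hN) l
  have hcx' : ∀ t, 2 * l + t ≤ d → l + t = j + s → dat h X l t j s q = x := hcx
  have hcy' : ∀ t, 2 * l + t ≤ d → l + t + 1 = j + s → dat h X l t j s q = y := hcy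
  -- points where the component vanishes
  have hvan : ∀ k ≤ d, d + 2 ≤ k + s + j → P k (pr h l (X (aeval A (str a j s) q))) = 0 :=
    fun k hk hks => vanish h hX j q hq l s k hk (fun s' hs' hjs' => ih s' hs' (by omega) hjs')
      (Or.inr hks) _
  -- two points
  have htwo : l + 1 ≤ j + s → j + s + l ≤ d → d + 2 ≤ (d - l - 1) + s + j →
      x = 0 ∧ y = 0 := by
    intro h1 h2 h3
    have e1 : j + s - l = (j + s - 1 - l) + 1 := by omega
    have h4 := hvan (d - l) (by omega) (by omega)
    have h5 := hvan (d - l - 1) (by omega) h3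
    rw [he, e1] at h4 h5
    exact two_pt h l (j + s - 1 - l) (by omega) x y hx hy h4 h5
  -- one point
  have hone : x = 0 → l + 1 ≤ j + s → j + s + l ≤ d + 1 → d + 2 ≤ (d - l) + s + j → y = 0 := by
    intro hx1 h1 h2 h3
    have h4 := hvan (d - l) (by omega) h3
    rw [he, hx1, map_zero, zero_add] at h4
    exact one_pt h l (j + s - 1 - l) (by omega) y hy h4
  have hfin : x = 0 → y = 0 → pr h l (X (aeval A (str a j s) q)) = 0 := by
    intro h1 h2
    rw [he, h1, h2, map_zero, map_zero, add_zero]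
  by_cases c1 : j + s < l
  · exact hfin (hx0 (by omega)) (hy0 (by omega))
  by_cases c2 : l + 3 ≤ j
  · obtain ⟨h1, h2⟩ := htwo (by omega) (by omega) (by omega)
    exact hfin h1 h2
  by_cases c3 : l + 2 = j
  · subst c3
    have hxz : s = 0 → x = 0 := by
      intro hs0
      subst hs0
      rw [← hcx' 2 (by omega) (by omega)]
      exact hZ.l l (by omega) q hq
    by_cases hs0 : s = 0
    · have h1 := hxz hs0
      exact hfin h1 (hone h1 (by omega) (by omega) (by omega))
    · obtain ⟨h1, h2⟩ := htwo (by omega) (by omega) (by omega)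
      exact hfin h1 h2
  by_cases c4 : l + 1 = j
  · subst c4
    by_cases hs0 : s = 0
    · subst hs0
      refine hfin ?_ ?_
      · rw [← hcx' 1 (by omega) (by omega)]
        exact hZ.h2 l (by omega) q hq
      · rw [← hcy' 0 (by omega) (by omega)]
        exact hZ.h1 l (by omega) q hq
    · by_cases hs1 : s = 1
      · subst hs1
        have h1 : x = 0 := by
          rw [← hcx' 2 (by omega) (by omega)]
          exact hZ.h3 l (by omega) q hq
        exact hfin h1 (hone h1 (by omega) (by omega) (by omega))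
      · obtain ⟨h1, h2⟩ := htwo (by omega) (by omega) (by omega)
        exact hfin h1 h2
  by_cases c5 : l = j
  · subst c5
    by_cases hs0 : s = 0
    · subst hs0
      refine hfin ?_ (hy0 (by omega))
      rw [← hcx' 0 (by omega) (by omega)]
      exact hZ.f0 l (by omega) q hq
    · by_cases hs1 : s = 1
      · subst hs1
        refine hfin ?_ ?_
        · rw [← hcx' 1 (by omega) (by omega)]
          exact hZ.f2 l (by omega) q hq
        · rw [← hcy' 0 (by omega) (by omega)]
          exact hZ.f1 l (by omega) q hq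
      · have hs2 : s = 2 := by omega
        subst hs2
        have h1 : x = 0 := by
          rw [← hcx' 2 (by omega) (by omega)]
          exact hZ.f3 l (by omega) q hq
        exact hfin h1 (hone h1 (by omega) (by omega) (by omega))
  by_cases c6 : l = j + 1
  · subst c6
    by_cases hs1 : s = 1
    · subst hs1
      refine hfin ?_ (hy0 (by omega))
      by_cases hd : 2 * j + 2 ≤ d
      · rw [← hcx' 0 (by omega) (by omega)]
        exact hZ.g3 j hd q hq
      · exact hx0 (by omega)
    · have hs2 : s = 2 := by omega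
      subst hs2
      refine hfin ?_ ?_
      · by_cases hd : 2 * j + 3 ≤ d
        · rw [← hcx' 1 (by omega) (by omega)]
          exact hZ.g2 j hd q hq
        · exact hx0 (by omega)
      · rw [← hcy' 0 (by omega) (by omega)]
        exact hZ.g1 j (by omega) q hq
  · have c7 : l = j + 2 := by omega
    have hs2 : s = 2 := by omega
    subst c7
    subst hs2
    refine hfin ?_ (hy0 (by omega))
    by_cases hd : 2 * j + 4 ≤ d
    · rw [← hcx' 0 (by omega) (by omega)]
      exact hZ.k j hd q hq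
    · exact hx0 (by omega)

theorem Zero.eq_zero (h : Sys A B d a P d b Q) (hX : SF d P Q X) (hZ : Zero h X) : X = 0 := by
  refine Sys.map_ext h X 0 fun j s hjs q hq => ?_
  rw [LinearMap.zero_apply]
  refine pr_ext h _ fun l => h.iA.eq_zero _ fun k hk => ?_
  exact vanish h hX j q hq l 3 k hk
    (fun s' hs' hjs' => Zero.comp h hX hZ j q hq l s' (by omega) hjs') (Or.inl rfl) _

end Pool.Agent.Helper40.TDF
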