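import Pool.Agent.Helper40.TDF.Fin

/-! The main theorem: linear equivalence with the space of parameters, and the dimension. -/

set_option autoImplicit false

namespace Pool.Agent.Helper40.TDF

open Polynomial Module Pool.Agent.Helper9.TD Pool.Agent.R841.TD

variable {K : Type*} [Field K] {V : Type*} [AddCommGroup V] [Module K V]

variable {A B : Module.End K V} {d : ℕ} {a b : ℕ → K} {P Q : ℕ → Module.End K V}
  {X Y : Module.End K V}

theorem xt_eq_zero {n : ℕ} {L L' : ℕ → Submodule K V} (f : ∀ j : Fin n, L j →ₗ[K] L' j)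
    (hf : ∀ j, j < n → xt f j = 0) : f = 0 := by
  funext j
  have h1 := hf j j.2
  rw [xt_lt f j j.2] at h1
  exact h1

/-- the parameters are determined by the map -/
theorem ker_trivial (h : Sys A B d a P d b Q) (β : K)
    (hrec : ∀ i, i + 3 ≤ d → a i - a (i + 3) = (β + 1) * (a (i + 1) - a (i + 2)))
    (p : Par (LW d P Q) d) (hp : Formula A d a β (dt p) 0) : p = 0 := by
  have hV := val_of_formula h β _ hp
  have T0 : TT β 0 = 0 := rfl
  have T1 : TT β 1 = 1 := rfl
  have d0 : ∀ l t j s (q : V), dat h 0 l t j s q = 0 := by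
    intro l t j s q
    unfold dat
    rw [LinearMap.zero_apply, map_zero]
    rfl
  have cf0 : ∀ j, 2 * j ≤ d → (dt p).f0 j = 0 := by
    intro j hj
    refine LinearMap.ext fun q => Subtype.ext ?_
    have h1 := hV.f0 j hj q
    rw [d0] at h1
    exact h1.symm
  have cf2 : ∀ j, 2 * j + 1 ≤ d → (dt p).f2 j = 0 := by
    intro j hj
    refine LinearMap.ext fun q => Subtype.ext ?_
    have h1 := hV.f2 j hj q
    rw [d0, cf0 j (by omega)] at h1
    have h2 : (0 : V) = AA d a j 1 • ((dt p).f2 j q : V) := by simpa using h1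
    exact (smul_eq_zero.mp h2.symm).resolve_left (AA_one_ne h j hj)
  have cf1 : ∀ j, 2 * j + 1 ≤ d → (dt p).f1 j = 0 := by
    intro j hj
    refine LinearMap.ext fun q => Subtype.ext ?_
    have h1 := hV.f1 j hj q
    rw [d0, cf2 j hj] at h1
    have h2 : (0 : V) = AA d a j 1 • ((dt p).f1 j q : V) := by simpa using h1
    exact (smul_eq_zero.mp h2.symm).resolve_left (AA_one_ne h j hj)
  have cf3 : ∀ j, 2 * j + 2 ≤ d → (dt p).f3 j = 0 := by
    intro j hj
    refine LinearMap.ext fun q => Subtype.ext ?_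
    have h1 := hV.f3 j hj q
    rw [d0, cf0 j (by omega), cf2 j (by omega)] at h1
    have h2 : (0 : V) = ((dt p).f3 j q : V) := by simpa using h1
    exact h2.symm
  have cg3 : ∀ j, 2 * j + 2 ≤ d → (dt p).g3 j = 0 := by
    intro j hj
    refine LinearMap.ext fun q => Subtype.ext ?_
    have h1 := hV.g3 j hj q
    rw [d0] at h1
    exact h1.symm
  have cg2 : ∀ j, 2 * j + 2 ≤ d → (dt p).g2 j = 0 := by
    intro j hj
    by_cases hd : 2 * j + 3 ≤ d
    · refine LinearMap.ext fun q => Subtype.ext ?_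
      have h1 := hV.g2 j hd q
      rw [d0, cg3 j hj] at h1
      have h2 : (0 : V) = ((dt p).g2 j q : V) := by simpa using h1
      exact h2.symm
    · exact xt_ge (L' := fun j => LW d P Q (j + 1)) p.2.2.2.2.2.1 j (by omega)
  have cg1 : ∀ j, 2 * j + 2 ≤ d → (dt p).g1 j = 0 := by
    intro j hj
    refine LinearMap.ext fun q => Subtype.ext ?_
    have h1 := hV.g1 j hj q
    rw [d0, cg3 j hj, cg2 j hj] at h1
    have h2 : (0 : V) = ((dt p).g1 j q : V) := by simpa using h1
    exact h2.symm
  have ch3 : ∀ j, 2 * j + 2 ≤ d → (dt p).h3 j = 0 := by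
    intro j hj
    by_cases hd : 2 * j + 3 ≤ d
    · refine LinearMap.ext fun q => Subtype.ext ?_
      have h1 := hV.h2 j hj q
      have h2 := hV.h3 j hd q
      rw [d0] at h1 h2
      have hI := TT_I β (d - 3 - 2 * j)
      rw [show d - 3 - 2 * j + 1 = d - 2 - 2 * j by omega,
        show d - 3 - 2 * j + 2 = d - 1 - 2 * j by omega] at hI
      have h3 : TT β (d - 2 - 2 * j) • ((dt p).h3 j q : V) =
          TT β (d - 2 - 2 * j) • (TT β (d - 1 - 2 * j) • ((dt p).h2 j q : V) +
            TT β (d - 2 - 2 * j) • ((dt p).h3 j q : V)) -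
          TT β (d - 1 - 2 * j) • (TT β (d - 2 - 2 * j) • ((dt p).h2 j q : V) +
            TT β (d - 3 - 2 * j) • ((dt p).h3 j q : V)) := by
        match_scalars
        · linear_combination -hI
        · ring
      rw [← h1, ← h2, smul_zero, smul_zero, sub_zero] at h3
      exact (smul_eq_zero.mp h3).resolve_left (TT_ne h β hrec _ (by omega) (by omega))
    · exact xt_ge (L := fun j => LW d P Q (j + 1)) p.2.2.2.2.2.2.2.2.2.1 j (by omega)
  have ch2 : ∀ j, 2 * j + 2 ≤ d → (dt p).h2 j = 0 := by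
    intro j hj
    refine LinearMap.ext fun q => Subtype.ext ?_
    have h1 := hV.h2 j hj q
    rw [d0, ch3 j hj] at h1
    have h2 : (0 : V) = TT β (d - 1 - 2 * j) • ((dt p).h2 j q : V) := by simpa using h1
    exact (smul_eq_zero.mp h2.symm).resolve_left (TT_ne h β hrec _ (by omega) (by omega))
  have ch1 : ∀ j, 2 * j + 2 ≤ d → (dt p).h1 j = 0 := by
    intro j hj
    refine LinearMap.ext fun q => Subtype.ext ?_
    have h1 := hV.h1 j hj q
    rw [d0, ch3 j hj, ch2 j hj] at h1
    have h2 : (0 : V) = TT β (d - 1 - 2 * j) • ((dt p).h1 j q : V) := by simpa using h1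
    exact (smul_eq_zero.mp h2.symm).resolve_left (TT_ne h β hrec _ (by omega) (by omega))
  have ck : ∀ j, 2 * j + 4 ≤ d → (dt p).k j = 0 := by
    intro j hj
    refine LinearMap.ext fun q => Subtype.ext ?_
    have h1 := hV.k j hj q
    rw [d0] at h1
    exact h1.symm
  have cl : ∀ j, 2 * j + 4 ≤ d → (dt p).l j = 0 := by
    intro j hj
    refine LinearMap.ext fun q => Subtype.ext ?_
    have h1 := hV.l j hj q
    rw [d0] at h1
    exact (smul_eq_zero.mp h1.symm).resolve_left (TT_ne h β hrec _ (by omega) (by omega))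
  refine Prod.ext ?_ (Prod.ext ?_ (Prod.ext ?_ (Prod.ext ?_ (Prod.ext ?_ (Prod.ext ?_ (Prod.ext ?_
    (Prod.ext ?_ (Prod.ext ?_ (Prod.ext ?_ (Prod.ext ?_ ?_))))))))))
  · exact xt_eq_zero (L := LW d P Q) (L' := LW d P Q) p.1 fun j hj => cf0 j (by omega)
  · exact xt_eq_zero (L := LW d P Q) (L' := LW d P Q) p.2.1 fun j hj => cf1 j (by omega)
  · exact xt_eq_zero (L := LW d P Q) (L' := LW d P Q) p.2.2.1 fun j hj => cf2 j (by omega)
  · exact xt_eq_zero (L := LW d P Q) (L' := LW d P Q) p.2.2.2.1 fun j hj => cf3 j (by omega)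
  · exact xt_eq_zero (L' := fun j => LW d P Q (j + 1)) p.2.2.2.2.1 fun j hj => cg1 j (by omega)
  · exact xt_eq_zero (L' := fun j => LW d P Q (j + 1)) p.2.2.2.2.2.1 fun j hj => cg2 j (by omega)
  · exact xt_eq_zero (L' := fun j => LW d P Q (j + 1)) p.2.2.2.2.2.2.1
      fun j hj => cg3 j (by omega)
  · exact xt_eq_zero (L := fun j => LW d P Q (j + 1)) p.2.2.2.2.2.2.2.1
      fun j hj => ch1 j (by omega)
  · exact xt_eq_zero (L := fun j => LW d P Q (j + 1)) p.2.2.2.2.2.2.2.2.1
      fun j hj => ch2 j (by omega)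
  · exact xt_eq_zero (L := fun j => LW d P Q (j + 1)) p.2.2.2.2.2.2.2.2.2.1
      fun j hj => ch3 j (by omega)
  · exact xt_eq_zero (L' := fun j => LW d P Q (j + 2)) p.2.2.2.2.2.2.2.2.2.2.1
      fun j hj => ck j (by omega)
  · exact xt_eq_zero (L := fun j => LW d P Q (j + 2)) p.2.2.2.2.2.2.2.2.2.2.2
      fun j hj => cl j (by omega)

theorem exists_equiv (h : Sys A B d a P d b Q) (L : ℕ → Submodule K V) (hL : L = LW d P Q)
    (S : Submodule K (Module.End K V)) (hS : ∀ X, X ∈ S ↔ SF d P Q X) (β : K)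
    (hrec : ∀ i, i + 3 ≤ d → a i - a (i + 3) = (β + 1) * (a (i + 1) - a (i + 2))) :
    ∃ e : Par L d ≃ₗ[K] S, ∀ (p : Par L d) (X : Module.End K V),
      Formula A d a β (dt p) X ↔ X = e p := by
  subst hL
  choose F hFS hF using fun p : Par (LW d P Q) d => exists_X h β hrec (dt p)
  let φ : Par (LW d P Q) d →ₗ[K] S :=
    { toFun := fun p => ⟨F p, (hS _).mpr (hFS p)⟩
      map_add' := fun p p' => Subtype.ext (formula_ext h (hF (p + p'))
        (by rw [dt_add]; exact (hF p).add (hF p')))
      map_smul' := fun c p => Subtype.ext (formula_ext h (hF (c • p))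
        (by rw [dt_smul]; exact (hF p).smul c)) }
  have hbij : Function.Bijective φ := by
    constructor
    · rw [← LinearMap.ker_eq_bot, LinearMap.ker_eq_bot']
      intro p hp
      have h0 : F p = 0 := congrArg Subtype.val hp
      have h1 := hF p
      rw [h0] at h1
      exact ker_trivial h β hrec p h1
    · rintro ⟨X, hX⟩
      obtain ⟨p, hp⟩ := exhaust h β hrec ((hS X).mp hX)
      exact ⟨p, Subtype.ext (formula_ext h (hF p) hp)⟩
  refine ⟨LinearEquiv.ofBijective φ hbij, fun p X => ⟨fun hX => formula_ext h hX (hF p), ?_⟩⟩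
  rintro rfl
  exact hF p

theorem fr_prod (M N : Type*) [AddCommGroup M] [Module K M] [AddCommGroup N] [Module K N]
    [FiniteDimensional K M] [FiniteDimensional K N] :
    finrank K (M × N) = finrank K M + finrank K N := finrank_prod

theorem fr12 (M1 M2 M3 M4 M5 M6 M7 M8 M9 M10 M11 M12 : Type*)
    [AddCommGroup M1] [Module K M1] [FiniteDimensional K M1]
    [AddCommGroup M2] [Module K M2] [FiniteDimensional K M2]
    [AddCommGroup M3] [Module K M3] [FiniteDimensional K M3]
    [AddCommGroup M4] [Module K M4] [FiniteDimensional K M4]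
    [AddCommGroup M5] [Module K M5] [FiniteDimensional K M5]
    [AddCommGroup M6] [Module K M6] [FiniteDimensional K M6]
    [AddCommGroup M7] [Module K M7] [FiniteDimensional K M7]
    [AddCommGroup M8] [Module K M8] [FiniteDimensional K M8]
    [AddCommGroup M9] [Module K M9] [FiniteDimensional K M9]
    [AddCommGroup M10] [Module K M10] [FiniteDimensional K M10]
    [AddCommGroup M11] [Module K M11] [FiniteDimensional K M11]
    [AddCommGroup M12] [Module K M12] [FiniteDimensional K M12] :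
    finrank K (M1 × M2 × M3 × M4 × M5 × M6 ×
      M7 × M8 × M9 × M10 × M11 × M12) =
      finrank K M1 + (finrank K M2 + (finrank K M3 + (finrank K M4 + (
      finrank K M5 + (finrank K M6 + (finrank K M7 + (finrank K M8 + (
      finrank K M9 + (finrank K M10 + (finrank K M11 + (finrank K M12))))))))))) := by
  rw [fr_prod, fr_prod, fr_prod, fr_prod, fr_prod, fr_prod, fr_prod, fr_prod, fr_prod, fr_prod,
    fr_prod]

theorem fr_pi {n : ℕ} (L L' : ℕ → Submodule K V) [FiniteDimensional K V] :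
    finrank K (∀ j : Fin n, L j →ₗ[K] L' j) =
      ∑ j ∈ Finset.range n, finrank K (L j) * finrank K (L' j) := by
  rw [finrank_pi_fintype, Finset.sum_range fun j => finrank K (L j) * finrank K (L' j)]
  exact Finset.sum_congr rfl fun j _ => finrank_linearMap K K _ _

theorem Par_finrank [FiniteDimensional K V] (L : ℕ → Submodule K V) (d : ℕ) :
    finrank K (Par L d) =
      ∑ j ∈ Finset.range (d / 2 + 1), finrank K (L j) ^ 2 +
      2 * ∑ j ∈ Finset.range ((d + 1) / 2), finrank K (L j) ^ 2 +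
      ∑ j ∈ Finset.range (d / 2), finrank K (L j) ^ 2 +
      4 * ∑ j ∈ Finset.range (d / 2), finrank K (L j) * finrank K (L (j + 1)) +
      2 * ∑ j ∈ Finset.range ((d - 1) / 2), finrank K (L j) * finrank K (L (j + 1)) +
      2 * ∑ j ∈ Finset.range (d / 2 - 1), finrank K (L j) * finrank K (L (j + 2)) := by
  rw [fr12, fr_pi L L, fr_pi L L, fr_pi L L, fr_pi L (fun j => L (j + 1)),
    fr_pi L (fun j => L (j + 1)), fr_pi (fun j => L (j + 1)) L, fr_pi (fun j => L (j + 1)) L,
    fr_pi L (fun j => L (j + 2)), fr_pi (fun j => L (j + 2)) L]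
  simp only [sq, mul_comm (finrank K (L (_ + 1)))]
  ring

theorem mem_FlagTri_iff (iA : Idem A d a P) (iB : Idem B d b Q) (X : Module.End K V) :
    X ∈ FlagTri A B d a b ↔ SF d P Q X := by
  have hdef : X ∈ FlagTri A B d a b ↔ (∀ i ≤ d, ∀ v ∈ B.eigenspace (b i),
      X v ∈ ⨆ (k : ℕ) (_ : k ≤ i), B.eigenspace (b k)) ∧
    (∀ i ≤ d, ∀ v ∈ A.eigenspace (a i),
      X v ∈ ⨆ (k : ℕ) (_ : k ≤ d ∧ k ≤ i + 1 ∧ i ≤ k + 1), A.eigenspace (a k)) := Iff.rfl
  rw [hdef]
  constructor
  · rintro ⟨h1, h2⟩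
    refine ⟨fun i hi k hk hik v => ?_, fun i hi k hk hik v => ?_⟩
    · have h3 := h1 i hi (Q i v) (by rw [Module.End.mem_eigenspace_iff]; exact iB.eig i hi v)
      rw [mem_iSup_iff iB _ (fun k hk => by omega)] at h3
      exact h3 k hk (by omega)
    · have h3 := h2 i hi (P i v) (by rw [Module.End.mem_eigenspace_iff]; exact iA.eig i hi v)
      rw [mem_iSup_iff iA _ (fun k hk => hk.1)] at h3
      exact h3 k hk (by omega)
  · rintro ⟨h1, h2⟩
    refine ⟨fun i hi v hv => ?_, fun i hi v hv => ?_⟩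
    · rw [Module.End.mem_eigenspace_iff] at hv
      rw [mem_iSup_iff iB _ (fun k hk => by omega)]
      intro k hk hki
      rw [← iB.mem i hi v hv]
      exact h1 i hi k hk (by omega) v
    · rw [Module.End.mem_eigenspace_iff] at hv
      rw [mem_iSup_iff iA _ (fun k hk => hk.1)]
      intro k hk hki
      rw [← iA.mem i hi v hv]
      exact h2 i hi k hk (by omega) v

theorem main {A B : Module.End K V} {d : ℕ} {a b : ℕ → K} (hA : TDOrdering A B d a)
    (hB : TDOrdering B A d b) (irred : Irred A B) (β : K) (hβ : Recur d a β) :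
    ∃ e : Par (Low A B d a b) d ≃ₗ[K] FlagTri A B d a b,
      ∀ (p : Par (Low A B d a b) d) (X : Module.End K V),
        Formula A d a β (dt p) X ↔ X = e p := by
  have h := TDOrdering.sys hA hB irred
  exact exists_equiv h _ (Low_eq h.iA h.iB) _ (mem_FlagTri_iff h.iA h.iB) β hβ

end Pool.Agent.Helper40.TDF
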