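import Pool.Agent.Helper40.TDF.Main

/-! The final form of the statement. -/

set_option autoImplicit false

namespace Pool.Agent.Helper40.TDF

open Polynomial Module Pool.Agent.Helper9.TD Pool.Agent.R841.TD

variable {K : Type*} [Field K] {V : Type*} [AddCommGroup V] [Module K V]

variable {A B : Module.End K V} {d : ℕ} {a b : ℕ → K} {P Q : ℕ → Module.End K V}
  {X Y : Module.End K V}

theorem isMap_iff {L : ℕ → Submodule K V} {β : K} {D : Dat L} :
    IsMap A d a β D X ↔ Formula A d a β D X := by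
  have key0 : ∀ s (q : L 0), termF A d a β D 0 s q + termG A a β D 0 s q =
      tau A a 0 s (D.f0 0 q) +
      AA d a 0 s • tau A a 0 (s - 1) ((D.f1 0 q : V) + A (D.f2 0 q)) +
      TT β (s - 1) • tau A a 0 (s - 1) (A (D.f3 0 q) - a (d - 0) • (D.f3 0 q : V)) +
      TT β (s - 1) • tau A a (0 + 1) (s - 2)
        ((D.g1 0 q : V) + A (D.g2 0 q) + a (0 + s) • (D.g3 0 q : V)) +
      TT β s • tau A a (0 + 1) (s - 1) (D.g3 0 q) +
      TT β (d + 1 - 2 * 0 - s) • tau A a (0 - 1) s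
        (dn1 D.h1 0 q + A (dn1 D.h2 0 q) + a (0 + s) • dn1 D.h3 0 q) +
      TT β (d - 2 * 0 - s) • tau A a (0 - 1) (s + 1) (dn1 D.h3 0 q) +
      TT β (s - 1) • tau A a (0 + 1) (s - 2) (D.k 0 q) +
      TT β (d + 1 - 2 * 0 - s) • tau A a (0 - 2) (s + 1)
        (A (dn2 D.l 0 q) - a (d + 2 - 0) • dn2 D.l 0 q) := by
    intro s q
    have e1 : dn1 D.h1 0 q = 0 := rfl
    have e2 : dn1 D.h2 0 q = 0 := rfl
    have e3 : dn1 D.h3 0 q = 0 := rfl
    have e4 : dn2 D.l 0 q = 0 := rfl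
    rw [e1, e2, e3, e4]
    simp only [termF, termG, ap, map_zero, smul_zero, add_zero, sub_self]
    abel
  have key1 : ∀ s (q : L 1), 2 + s ≤ d → termF A d a β D 1 s q + termG A a β D 1 s q +
      termH A d a β D 0 s q =
      tau A a 1 s (D.f0 1 q) +
      AA d a 1 s • tau A a 1 (s - 1) ((D.f1 1 q : V) + A (D.f2 1 q)) +
      TT β (s - 1) • tau A a 1 (s - 1) (A (D.f3 1 q) - a (d - 1) • (D.f3 1 q : V)) +
      TT β (s - 1) • tau A a (1 + 1) (s - 2)
        ((D.g1 1 q : V) + A (D.g2 1 q) + a (1 + s) • (D.g3 1 q : V)) +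
      TT β s • tau A a (1 + 1) (s - 1) (D.g3 1 q) +
      TT β (d + 1 - 2 * 1 - s) • tau A a (1 - 1) s
        (dn1 D.h1 1 q + A (dn1 D.h2 1 q) + a (1 + s) • dn1 D.h3 1 q) +
      TT β (d - 2 * 1 - s) • tau A a (1 - 1) (s + 1) (dn1 D.h3 1 q) +
      TT β (s - 1) • tau A a (1 + 1) (s - 2) (D.k 1 q) +
      TT β (d + 1 - 2 * 1 - s) • tau A a (1 - 2) (s + 1)
        (A (dn2 D.l 1 q) - a (d + 2 - 1) • dn2 D.l 1 q) := by
    intro s q hs
    have e1 : dn1 D.h1 1 q = ap D.h1 0 q := rfl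
    have e2 : dn1 D.h2 1 q = ap D.h2 0 q := rfl
    have e3 : dn1 D.h3 1 q = ap D.h3 0 q := rfl
    have e4 : dn2 D.l 1 q = 0 := rfl
    rw [e1, e2, e3, e4]
    simp only [termF, termG, termH, ap, map_zero, smul_zero, add_zero, sub_self, mul_zero,
      mul_one, zero_add, tsub_zero, Nat.sub_self, show d + 1 - 2 - s = d - 1 - s by omega]
    abel
  have key2 : ∀ j s (q : L (j + 2)), 2 * (j + 2) + s ≤ d → termF A d a β D (j + 2) s q +
      termG A a β D (j + 2) s q + termH A d a β D (j + 1) s q + termL A d a β D j s q =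
      tau A a (j + 2) s (D.f0 (j + 2) q) +
      AA d a (j + 2) s • tau A a (j + 2) (s - 1) ((D.f1 (j + 2) q : V) + A (D.f2 (j + 2) q)) +
      TT β (s - 1) • tau A a (j + 2) (s - 1)
        (A (D.f3 (j + 2) q) - a (d - (j + 2)) • (D.f3 (j + 2) q : V)) +
      TT β (s - 1) • tau A a (j + 2 + 1) (s - 2)
        ((D.g1 (j + 2) q : V) + A (D.g2 (j + 2) q) + a (j + 2 + s) • (D.g3 (j + 2) q : V)) +
      TT β s • tau A a (j + 2 + 1) (s - 1) (D.g3 (j + 2) q) +
      TT β (d + 1 - 2 * (j + 2) - s) • tau A a (j + 2 - 1) s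
        (dn1 D.h1 (j + 2) q + A (dn1 D.h2 (j + 2) q) + a (j + 2 + s) • dn1 D.h3 (j + 2) q) +
      TT β (d - 2 * (j + 2) - s) • tau A a (j + 2 - 1) (s + 1) (dn1 D.h3 (j + 2) q) +
      TT β (s - 1) • tau A a (j + 2 + 1) (s - 2) (D.k (j + 2) q) +
      TT β (d + 1 - 2 * (j + 2) - s) • tau A a (j + 2 - 2) (s + 1)
        (A (dn2 D.l (j + 2) q) - a (d + 2 - (j + 2)) • dn2 D.l (j + 2) q) := by
    intro j s q hs
    have e1 : dn1 D.h1 (j + 2) q = ap D.h1 (j + 1) q := rfl
    have e2 : dn1 D.h2 (j + 2) q = ap D.h2 (j + 1) q := rfl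
    have e3 : dn1 D.h3 (j + 2) q = ap D.h3 (j + 1) q := rfl
    have e4 : dn2 D.l (j + 2) q = ap D.l j q := rfl
    rw [e1, e2, e3, e4, show d + 1 - 2 * (j + 2) - s = d - 3 - 2 * j - s by omega,
      show d - 2 * (j + 2) - s = d - 2 - 2 * (j + 1) - s by omega,
      show d + 2 - (j + 2) = d - j by omega, show j + 2 - 1 = j + 1 by omega,
      show j + 2 - 2 = j by omega]
    simp only [termF, termG, termH, termL, ap]
    rw [show d - 1 - 2 * (j + 1) - s = d - 3 - 2 * j - s by omega,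
      show j + 1 + 1 + s = j + 2 + s by omega]
    abel
  constructor
  · rintro ⟨h1, h2, h3⟩ j s hjs q
    rcases j with _ | _ | j
    · exact (h1 s (by omega) q).trans (key0 s q)
    · exact (h2 s (by omega) q).trans (key1 s q (by omega))
    · exact (h3 j s hjs q).trans (key2 j s q hjs)
  · intro h
    refine ⟨fun s hs q => ?_, fun s hs q => ?_, fun j s hjs q => ?_⟩
    · exact (h 0 s (by omega) q).trans (key0 s q).symm
    · exact (h 1 s (by omega) q).trans (key1 s q (by omega)).symm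
    · exact (h (j + 2) s hjs q).trans (key2 j s q hjs).symm

theorem supp_xt {n : ℕ} {L L' : ℕ → Submodule K V} (f : ∀ j : Fin n, L j →ₗ[K] L' j) (d c : ℕ)
    (hn : ∀ j, d < 2 * j + c → n ≤ j) : Supp (L := L) (L' := L') (xt f) d c :=
  fun j hj => xt_ge f j (hn j hj)

theorem xt_supp {n : ℕ} {L L' : ℕ → Submodule K V} (f : Fam L L') (d c : ℕ)
    (hn : ∀ j, n ≤ j → d < 2 * j + c) (hf : Supp f d c) :
    xt (L := L) (L' := L') (fun j : Fin n => f j) = f := by
  funext j
  by_cases hj : j < n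
  · exact xt_res f j hj
  · rw [xt_ge _ j (by omega), hf j (hn j (by omega))]

theorem inRange_dt {L : ℕ → Submodule K V} (p : Par L d) : InRange d (dt p) := by
  refine ⟨?_, ?_, ?_, ?_, ?_, ?_, ?_, ?_, ?_, ?_, ?_, ?_⟩
  · exact supp_xt (L := L) (L' := L) _ d 0 fun j hj => by omega
  · exact supp_xt (L := L) (L' := L) _ d 1 fun j hj => by omega
  · exact supp_xt (L := L) (L' := L) _ d 1 fun j hj => by omega
  · exact supp_xt (L := L) (L' := L) _ d 2 fun j hj => by omega
  · exact supp_xt (L := L) (L' := fun j => L (j + 1)) _ d 2 fun j hj => by omega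
  · exact supp_xt (L := L) (L' := fun j => L (j + 1)) _ d 3 fun j hj => by omega
  · exact supp_xt (L := L) (L' := fun j => L (j + 1)) _ d 2 fun j hj => by omega
  · exact supp_xt (L := fun j => L (j + 1)) (L' := L) _ d 2 fun j hj => by omega
  · exact supp_xt (L := fun j => L (j + 1)) (L' := L) _ d 2 fun j hj => by omega
  · exact supp_xt (L := fun j => L (j + 1)) (L' := L) _ d 3 fun j hj => by omega
  · exact supp_xt (L := L) (L' := fun j => L (j + 2)) _ d 4 fun j hj => by omega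
  · exact supp_xt (L := fun j => L (j + 2)) (L' := L) _ d 4 fun j hj => by omega

theorem dt_res {L : ℕ → Submodule K V} (D : Dat L) (hD : InRange d D) : dt (res d D) = D := by
  obtain ⟨h1, h2, h3, h4, h5, h6, h7, h8, h9, h10, h11, h12⟩ := hD
  obtain ⟨f0, f1, f2, f3, g1, g2, g3, z1, z2, z3, k, l⟩ := D
  simp only [dt, res, Dat.mk.injEq]
  refine ⟨?_, ?_, ?_, ?_, ?_, ?_, ?_, ?_, ?_, ?_, ?_, ?_⟩
  · exact xt_supp (L := L) (L' := L) _ d 0 (fun j hj => by omega) h1
  · exact xt_supp (L := L) (L' := L) _ d 1 (fun j hj => by omega) h2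
  · exact xt_supp (L := L) (L' := L) _ d 1 (fun j hj => by omega) h3
  · exact xt_supp (L := L) (L' := L) _ d 2 (fun j hj => by omega) h4
  · exact xt_supp (L := L) (L' := fun j => L (j + 1)) _ d 2 (fun j hj => by omega) h5
  · exact xt_supp (L := L) (L' := fun j => L (j + 1)) _ d 3 (fun j hj => by omega) h6
  · exact xt_supp (L := L) (L' := fun j => L (j + 1)) _ d 2 (fun j hj => by omega) h7
  · exact xt_supp (L := fun j => L (j + 1)) (L' := L) _ d 2 (fun j hj => by omega) h8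
  · exact xt_supp (L := fun j => L (j + 1)) (L' := L) _ d 2 (fun j hj => by omega) h9
  · exact xt_supp (L := fun j => L (j + 1)) (L' := L) _ d 3 (fun j hj => by omega) h10
  · exact xt_supp (L := L) (L' := fun j => L (j + 2)) _ d 4 (fun j hj => by omega) h11
  · exact xt_supp (L := fun j => L (j + 2)) (L' := L) _ d 4 (fun j hj => by omega) h12

theorem sys_makes (h : Sys A B d a P d b Q) (L : ℕ → Submodule K V) (hL : L = LW d P Q)
    (β : K) (hrec : Recur d a β) (D : Dat L) :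
    (∃! X, IsMap A d a β D X) ∧ ∀ X, IsMap A d a β D X → SF d P Q X := by
  subst hL
  obtain ⟨X, hXS, hX⟩ := exists_X h β hrec D
  refine ⟨⟨X, isMap_iff.mpr hX, fun X' hX' => formula_ext h (isMap_iff.mp hX') hX⟩,
    fun X' hX' => ?_⟩
  rw [formula_ext h (isMap_iff.mp hX') hX]
  exact hXS

theorem sys_covers (h : Sys A B d a P d b Q) (L : ℕ → Submodule K V) (hL : L = LW d P Q)
    (β : K) (hrec : Recur d a β) (hX : SF d P Q X) :
    ∃! D : Dat L, InRange d D ∧ IsMap A d a β D X := by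
  subst hL
  obtain ⟨p, hp⟩ := exhaust h β hrec hX
  refine ⟨dt p, ⟨inRange_dt p, isMap_iff.mpr hp⟩, ?_⟩
  rintro D ⟨hDr, hD⟩
  have h1 : Formula A d a β (dt (res d D)) X := by rw [dt_res D hDr]; exact isMap_iff.mp hD
  have h2 : Formula A d a β (dt (res d D + (-1 : K) • p)) (X + (-1 : K) • X) := by
    rw [dt_add, dt_smul]
    exact h1.add (hp.smul (-1))
  have h3 : X + (-1 : K) • X = 0 := by
    rw [neg_one_smul, add_neg_cancel]
  rw [h3] at h2
  have h4 := ker_trivial h β hrec _ h2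
  have h5 : res d D = p := by
    have h6 : (-1 : K) • p = -p := neg_one_smul K p
    exact add_neg_eq_zero.mp (h6 ▸ h4)
  rw [← h5, dt_res D hDr]

theorem main_makes {A B : Module.End K V} {d : ℕ} {a b : ℕ → K} (hA : TDOrdering A B d a)
    (hB : TDOrdering B A d b) (irred : Irred A B) (β : K) (hβ : Recur d a β) :
    Makes A B d a b β ∧ Covers A B d a b β := by
  have h := TDOrdering.sys hA hB irred
  have hL := Low_eq h.iA h.iB
  have hS : ∀ X, IsFlagTri A B d a b X ↔ SF d _ _ X := mem_FlagTri_iff h.iA h.iB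
  refine ⟨fun D => ?_, fun X hX => sys_covers h _ hL β hβ ((hS X).mp hX)⟩
  obtain ⟨h1, h2⟩ := sys_makes h _ hL β hβ D
  exact ⟨h1, fun X hX => (hS X).mpr (h2 X hX)⟩

theorem main_dim [FiniteDimensional K V] {A B : Module.End K V} {d : ℕ} {a b : ℕ → K}
    (hA : TDOrdering A B d a) (hB : TDOrdering B A d b) (irred : Irred A B) :
    DimFlagTri A B d a b := by
  have h := TDOrdering.sys hA hB irred
  obtain ⟨β, hβ⟩ := rec_a h
  obtain ⟨e, -⟩ := main hA hB irred β hβ
  show finrank K (FlagTri A B d a b) = _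
  rw [← e.finrank_eq, Par_finrank]
  rfl

end Pool.Agent.Helper40.TDF
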